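import Pool.Agent.PH48.WinRho
import Pool.Agent.HB45.Dec

set_option autoImplicit false

/-!
# PH48/Win4: antichain windows of four letters have decay `exp (-(1 - cos θ) / 7)`
-/

open Polynomial

namespace Pool.HB45

/-- the words where exchanging the two middle letters changes the number of descents by one -/
def P4 (lab : Fin (3 + 1) → ℕ) : Finset (Equiv.Perm (Fin (3 + 1))) :=
  Finset.univ.filter fun g => des lab (g * Equiv.swap 1 2) = des lab g + 1 ∨
    des lab g = des lab (g * Equiv.swap 1 2) + 1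

theorem P4_val : (P4 (fun a => a.val)).card = 16 := by
  decide +kernel

theorem des_sort {lab : Fin (3 + 1) → ℕ} (hinj : Function.Injective lab)
    (g : Equiv.Perm (Fin (3 + 1))) :
    des lab (Tuple.sort lab * g) = des (fun a => a.val) g := by
  have hm : StrictMono (lab ∘ Tuple.sort lab) :=
    (Tuple.monotone_sort lab).strictMono_of_injective (hinj.comp (Tuple.sort lab).injective)
  unfold des
  congr 1
  refine Finset.filter_congr fun i _ => ?_
  rw [Equiv.Perm.mul_apply, Equiv.Perm.mul_apply]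
  exact (hm.lt_iff_lt (a := g i.succ) (b := g i.castSucc)).trans Fin.lt_def

theorem P4_card {lab : Fin (3 + 1) → ℕ} (hinj : Function.Injective lab) : (P4 lab).card = 16 := by
  rw [← P4_val]
  symm
  refine Finset.card_bij (fun g _ => Tuple.sort lab * g) ?_ ?_ ?_
  · intro g hg
    unfold P4 at hg ⊢
    rw [Finset.mem_filter] at hg ⊢
    refine ⟨Finset.mem_univ _, ?_⟩
    rw [mul_assoc, des_sort hinj, des_sort hinj]
    exact hg.2
  · intro g _ g' _ h
    exact mul_left_cancel h
  · intro g hg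
    refine ⟨(Tuple.sort lab)⁻¹ * g, ?_, mul_inv_cancel_left _ _⟩
    unfold P4 at hg ⊢
    rw [Finset.mem_filter] at hg ⊢
    refine ⟨Finset.mem_univ _, ?_⟩
    have e1 : des lab g = des (fun a => a.val) ((Tuple.sort lab)⁻¹ * g) := by
      rw [← des_sort hinj, mul_inv_cancel_left]
    have e2 : des lab (g * Equiv.swap 1 2) =
        des (fun a => a.val) ((Tuple.sort lab)⁻¹ * g * Equiv.swap 1 2) := by
      rw [← des_sort hinj, mul_assoc, mul_inv_cancel_left]
    have h := hg.2
    rw [e1, e2] at h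
    exact h

theorem desB_swap4 (lab : Fin (3 + 1) → ℕ) (c d : ℕ) (g : Equiv.Perm (Fin (3 + 1))) :
    desB lab c d (g * Equiv.swap 1 2) = des lab (g * Equiv.swap 1 2) +
      (if lab (g 0) < c then 1 else 0) + (if d < lab (g (Fin.last 3)) then 1 else 0) := by
  unfold desB
  have e1 : (g * Equiv.swap (1 : Fin (3 + 1)) 2 : Equiv.Perm (Fin (3 + 1))) 0 = g 0 := by
    rw [Equiv.Perm.mul_apply, Equiv.swap_apply_of_ne_of_ne (by decide) (by decide)]
  have e2 : (g * Equiv.swap (1 : Fin (3 + 1)) 2 : Equiv.Perm (Fin (3 + 1))) (Fin.last 3) =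
      g (Fin.last 3) := by
    rw [Equiv.Perm.mul_apply, Equiv.swap_apply_of_ne_of_ne (by decide) (by decide)]
  rw [e1, e2]

/-- `‖1 + r e^(iθ)‖ ≤ (1 + r) (1 - (1/4 - 1/1000) (1 - cos θ))` for `r` near `1` -/
theorem norm_one_add (r θ : ℝ) (hr : 99 / 100 ≤ r) (hr' : r ≤ 101 / 100) :
    ‖1 + (r : ℂ) * Complex.exp (θ * Complex.I)‖ ≤
      (1 + r) * (1 - 249 / 1000 * (1 - Real.cos θ)) := by
  have hc1 := Real.cos_le_one θ
  have hc2 := Real.neg_one_le_cos θ
  have h0 : 0 ≤ (1 + r) * (1 - 249 / 1000 * (1 - Real.cos θ)) := by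
    apply mul_nonneg
    · linarith
    · linarith
  rw [← Real.sqrt_sq h0, Complex.norm_eq_sqrt_sq_add_sq]
  apply Real.sqrt_le_sqrt
  have e1 : (1 + (r : ℂ) * Complex.exp (θ * Complex.I)).re = 1 + r * Real.cos θ := by
    rw [Complex.exp_mul_I]
    simp [Complex.cos_ofReal_re, Complex.sin_ofReal_re]
  have e2 : (1 + (r : ℂ) * Complex.exp (θ * Complex.I)).im = r * Real.sin θ := by
    rw [Complex.exp_mul_I]
    simp [Complex.cos_ofReal_re, Complex.sin_ofReal_re]
  rw [e1, e2]
  have h3 := Real.sin_sq_add_cos_sq θ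
  have e3 : (1 + r * Real.cos θ) ^ 2 + (r * Real.sin θ) ^ 2 =
      (1 + r) ^ 2 - 2 * r * (1 - Real.cos θ) := by
    have : (r * Real.sin θ) ^ 2 = r ^ 2 * (1 - Real.cos θ ^ 2) := by
      rw [mul_pow]
      congr 1
      linarith
    rw [this]
    ring
  rw [e3]
  set u := 1 - Real.cos θ with hu
  have hu0 : 0 ≤ u := by rw [hu]; linarith
  have e4 : ((1 + r) * (1 - 249 / 1000 * u)) ^ 2 =
      (1 + r) ^ 2 - 2 * (249 / 1000) * (1 + r) ^ 2 * u + (1 + r) ^ 2 * (249 / 1000 * u) ^ 2 := by ring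
  rw [e4]
  have h5 : 2 * (249 / 1000) * (1 + r) ^ 2 ≤ 2 * r := by nlinarith
  have h6 := mul_le_mul_of_nonneg_right h5 hu0
  have h7 : 0 ≤ (1 + r) ^ 2 * (249 / 1000 * u) ^ 2 := by positivity
  linarith

theorem pow_bounds {r : ℝ} (hr : 99 / 100 ≤ r) (hr' : r ≤ 101 / 100) (k : ℕ) (hk : k ≤ 5) :
    (99 / 100) ^ 5 ≤ r ^ k ∧ r ^ k ≤ (101 / 100) ^ 5 := by
  constructor
  · calc (99 / 100 : ℝ) ^ 5 ≤ (99 / 100) ^ k :=
          pow_le_pow_of_le_one (by norm_num) (by norm_num) hk
      _ ≤ r ^ k := pow_le_pow_left₀ (by norm_num) hr k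
  · calc r ^ k ≤ (101 / 100) ^ k := pow_le_pow_left₀ (by linarith) hr' k
      _ ≤ (101 / 100) ^ 5 := pow_le_pow_right₀ (by norm_num) hk

/-- DECAY of an antichain window. -/
theorem Gp_anti {Q : Rel (3 + 1)} {lab : Fin (3 + 1) → ℕ} (hinj : Function.Injective lab)
    (hQ : ∀ i j, ¬ Q i j) (c d : ℕ) (r θ : ℝ) (hr : 99 / 100 ≤ r) (hr' : r ≤ 101 / 100) :
    ‖aeval ((r : ℂ) * Complex.exp (θ * Complex.I)) (Gp Q lab c d)‖ ≤
      Real.exp (-(1 / 7 * (1 - Real.cos θ))) * (Gp Q lab c d).eval r := by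
  classical
  have hr0 : 0 < r := by linarith
  have hc1 := Real.cos_le_one θ
  have hc2 := Real.neg_one_le_cos θ
  have hall : LE Q = Finset.univ := by
    rw [Finset.eq_univ_iff_forall]
    intro g
    rw [mem_LE]
    intro i j hij
    exact absurd hij (hQ _ _)
  have ht : ‖(r : ℂ) * Complex.exp (θ * Complex.I)‖ = r := by
    rw [norm_mul, Complex.norm_exp_ofReal_mul_I, mul_one, Complex.norm_real, Real.norm_eq_abs,
      abs_of_nonneg hr0.le]
  have hone := norm_one_add r θ hr hr'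
  set t : ℂ := (r : ℂ) * Complex.exp (θ * Complex.I) with htt
  set u := 1 - Real.cos θ with hu
  have hu0 : 0 ≤ u := by rw [hu]; linarith
  have hu2 : u ≤ 2 := by rw [hu]; linarith
  -- reindexing by the swap
  have hre : ∀ F : Equiv.Perm (Fin (3 + 1)) → ℝ, ∑ g, F (g * Equiv.swap 1 2) = ∑ g, F g := fun F =>
    Equiv.sum_comp (Equiv.mulRight (Equiv.swap (1 : Fin (3 + 1)) 2)) F
  have hreC : ∀ F : Equiv.Perm (Fin (3 + 1)) → ℂ, ∑ g, F (g * Equiv.swap 1 2) = ∑ g, F g := fun F =>
    Equiv.sum_comp (Equiv.mulRight (Equiv.swap (1 : Fin (3 + 1)) 2)) F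
  have hev : (Gp Q lab c d).eval r = ∑ g, r ^ desB lab c d g := by
    unfold Gp
    rw [hall, eval_finsetSum]
    simp
  have hae : aeval t (Gp Q lab c d) = ∑ g, t ^ desB lab c d g := by
    unfold Gp
    rw [hall, map_sum]
    simp
  -- one pair
  have hpair : ∀ g : Equiv.Perm (Fin (3 + 1)),
      ‖t ^ desB lab c d g + t ^ desB lab c d (g * Equiv.swap 1 2)‖ ≤
        r ^ desB lab c d g + r ^ desB lab c d (g * Equiv.swap 1 2) -
          249 / 1000 * u * (if g ∈ P4 lab then
            r ^ desB lab c d g + r ^ desB lab c d (g * Equiv.swap 1 2) else 0) := by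
    intro g
    split_ifs with hg
    · have key : ∀ a : ℕ, ‖t ^ a + t ^ (a + 1)‖ ≤
          (r ^ a + r ^ (a + 1)) * (1 - 249 / 1000 * u) := by
        intro a
        have e1 : t ^ a + t ^ (a + 1) = t ^ a * (1 + t) := by ring
        rw [e1, norm_mul, norm_pow, ht]
        calc r ^ a * ‖1 + t‖ ≤ r ^ a * ((1 + r) * (1 - 249 / 1000 * u)) :=
              mul_le_mul_of_nonneg_left hone (by positivity)
          _ = _ := by ring
      unfold P4 at hg
      rw [Finset.mem_filter] at hg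
      have hs := desB_swap4 lab c d g
      have h0 : desB lab c d g = des lab g +
        (if lab (g 0) < c then 1 else 0) + (if d < lab (g (Fin.last 3)) then 1 else 0) := rfl
      rcases hg.2 with h | h
      · have h1 : desB lab c d (g * Equiv.swap 1 2) = desB lab c d g + 1 := by omega
        rw [h1]
        have := key (desB lab c d g)
        linarith
      · have h1 : desB lab c d g = desB lab c d (g * Equiv.swap 1 2) + 1 := by omega
        rw [h1, add_comm (t ^ _), add_comm (r ^ _)]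
        have := key (desB lab c d (g * Equiv.swap 1 2))
        linarith
    · rw [mul_zero, sub_zero]
      refine (norm_add_le _ _).trans (le_of_eq ?_)
      rw [norm_pow, norm_pow, ht]
  have h1 : ‖aeval t (Gp Q lab c d) + aeval t (Gp Q lab c d)‖ ≤
      ∑ g : Equiv.Perm (Fin (3 + 1)),
        (r ^ desB lab c d g + r ^ desB lab c d (g * Equiv.swap 1 2) -
          249 / 1000 * u * (if g ∈ P4 lab then
            r ^ desB lab c d g + r ^ desB lab c d (g * Equiv.swap 1 2) else 0)) := by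
    have e1 : aeval t (Gp Q lab c d) + aeval t (Gp Q lab c d) =
        ∑ g : Equiv.Perm (Fin (3 + 1)),
          (t ^ desB lab c d g + t ^ desB lab c d (g * Equiv.swap 1 2)) := by
      rw [Finset.sum_add_distrib, hreC (fun g => t ^ desB lab c d g), hae]
    rw [e1]
    exact (norm_sum_le _ _).trans (Finset.sum_le_sum fun g _ => hpair g)
  rw [Finset.sum_sub_distrib, Finset.sum_add_distrib, hre (fun g => r ^ desB lab c d g), ← hev,
    ← Finset.mul_sum, ← Finset.sum_filter] at h1
  have h2 : 16 * (2 * (99 / 100 : ℝ) ^ 5) ≤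
      ∑ g ∈ Finset.univ.filter (fun g => g ∈ P4 lab),
        (r ^ desB lab c d g + r ^ desB lab c d (g * Equiv.swap 1 2)) := by
    have e1 : Finset.univ.filter (fun g => g ∈ P4 lab) = P4 lab := by
      ext g
      simp
    rw [e1]
    have e2 : ∀ g ∈ P4 lab, 2 * (99 / 100 : ℝ) ^ 5 ≤
        r ^ desB lab c d g + r ^ desB lab c d (g * Equiv.swap 1 2) := by
      intro g _
      have h3 := (pow_bounds hr hr' _ (desB_le lab c d g)).1
      have h4 := (pow_bounds hr hr' _ (desB_le lab c d (g * Equiv.swap 1 2))).1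
      linarith
    have e3 := Finset.sum_le_sum e2
    rw [Finset.sum_const, P4_card hinj, nsmul_eq_mul] at e3
    exact_mod_cast e3
  have h3 : (Gp Q lab c d).eval r ≤ 24 * (101 / 100 : ℝ) ^ 5 := by
    rw [hev]
    have e1 : ∀ g ∈ (Finset.univ : Finset (Equiv.Perm (Fin (3 + 1)))),
        r ^ desB lab c d g ≤ (101 / 100 : ℝ) ^ 5 := fun g _ =>
      (pow_bounds hr hr' _ (desB_le lab c d g)).2
    have e2 := Finset.sum_le_sum e1
    rw [Finset.sum_const, Finset.card_univ, Fintype.card_perm, Fintype.card_fin, nsmul_eq_mul] at e2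
    have e3 : (((3 + 1).factorial : ℕ) : ℝ) = 24 := by
      norm_num [Nat.factorial]
    rw [e3] at e2
    exact e2
  have hG0 : 0 ≤ (Gp Q lab c d).eval r := by
    rw [hev]
    exact Finset.sum_nonneg fun g _ => by positivity
  have h4 : ‖aeval t (Gp Q lab c d)‖ ≤ (1 - 1 / 7 * u) * (Gp Q lab c d).eval r := by
    have e1 : ‖aeval t (Gp Q lab c d) + aeval t (Gp Q lab c d)‖ = 2 * ‖aeval t (Gp Q lab c d)‖ := by
      rw [← two_mul, norm_mul]
      norm_num
    rw [e1] at h1
    have e2 := mul_le_mul_of_nonneg_left h2 (by positivity : 0 ≤ 249 / 1000 * u)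
    have e3 := mul_le_mul_of_nonneg_left h3 (by positivity : 0 ≤ 1 / 7 * u)
    have e4 : 1 / 7 * (24 * (101 / 100 : ℝ) ^ 5) ≤ 249 / 1000 * (16 * (99 / 100 : ℝ) ^ 5) := by
      norm_num
    have e5 := mul_le_mul_of_nonneg_left e4 hu0
    nlinarith
  refine h4.trans (mul_le_mul_of_nonneg_right ?_ hG0)
  have h5 := Real.add_one_le_exp (-(1 / 7 * u))
  linarith

end Pool.HB45
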