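import Pool.Agent.PH48.Center
import Pool.Agent.SC25.Star

set_option autoImplicit false

/-!
# PH48/Cen25: the centre, in the form of SC25
-/

open Polynomial

namespace Pool.SC25

open Pool.HB45 Pool.HM63

theorem na_add_nbad {N m : ℕ} (hm : m * (3 + 2) ≤ N + 1) (Q : Rel (N + 1))
    (π : Equiv.Perm (Fin (N + 1))) : na hm Q π + nbad hm Q π = m := by
  classical
  have h1 : (Finset.univ.filter fun k : Fin m => Bad (winRel (win_le hm k) Q π)) =
      Finset.univ.filter fun k : Fin m => ¬ Anti (win_le hm k) Q π := by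
    refine Finset.filter_congr fun k _ => ?_
    unfold Bad Anti
    push Not
    rfl
  unfold na nbad
  rw [h1, Finset.card_filter_add_card_filter_not]
  simp

/-- share of the words with few antichain windows -/
theorem share25 {N h : ℕ} (hh : 1 ≤ h) {Q : Rel (N + 1)} {κ lab : Fin (N + 1) → ℕ}
    (hκ : Lev h Q κ) (hn : Nat' Q lab) (hNh : 20000 * h ≤ N) (m : ℕ) (hmd : m = (N + 1) / 5)
    (hm : m * (3 + 2) ≤ N + 1) (Y : ℕ) (hYd : Y = N / 20 + 1) :
    (((LE Q).filter (fun π => na hm Q π < Y)).card : ℝ) ≤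
      Real.exp (-((N : ℝ) / 400)) * (LE Q).card := by
  classical
  have hN200 : 20000 ≤ N := by omega
  obtain ⟨b, hb⟩ : ∃ b, b = m - Y := ⟨_, rfl⟩
  have hbY : b + Y = m := by omega
  have hb1 : 3 * N ≤ 20 * b + 40 := by omega
  have hb2 : 3 * (N : ℝ) ≤ 20 * b + 40 := by exact_mod_cast hb1
  have hN' : (20000 : ℝ) ≤ N := by exact_mod_cast hN200
  have hh' : (1 : ℝ) ≤ h := by exact_mod_cast hh
  have hNh' : 20000 * (h : ℝ) ≤ N := by exact_mod_cast hNh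
  have h0 := star hh hκ hn hm b (1 / 1000) (by norm_num)
  set T := (LE Q).filter (fun π => na hm Q π < Y) with hT
  have hsub : T ⊆ (LE Q).filter (fun g => b ≤ nbad hm Q g) := by
    intro g hg
    rw [hT, Finset.mem_filter] at hg
    rw [Finset.mem_filter]
    refine ⟨hg.1, ?_⟩
    have h2 := na_add_nbad hm Q g
    omega
  have hN0 : (0 : ℝ) ≤ N := by linarith
  have h1 : (T.card : ℝ) * Real.exp (-((N : ℝ) / 1000)) ≤
      ∑ g ∈ (LE Q).filter (fun g => b ≤ nbad hm Q g), Real.exp (-(1 / 1000 : ℝ)) ^ des lab g := by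
    calc (T.card : ℝ) * Real.exp (-((N : ℝ) / 1000))
        = ∑ _g ∈ T, Real.exp (-((N : ℝ) / 1000)) := by rw [Finset.sum_const, nsmul_eq_mul]
      _ ≤ ∑ g ∈ T, Real.exp (-(1 / 1000 : ℝ)) ^ des lab g := by
          refine Finset.sum_le_sum fun g _ => ?_
          rw [← Real.exp_nat_mul, Real.exp_le_exp]
          have h2 : (des lab g : ℝ) ≤ N := by exact_mod_cast des_le lab g
          linarith
      _ ≤ _ := Finset.sum_le_sum_of_subset_of_nonneg hsub fun g _ _ => by positivity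
  have hps : ps (1 / 1000) ≤ 1 := by
    unfold ps
    rw [div_le_one (by norm_num)]
    have := Real.add_one_le_exp (-(1 / 1000 : ℝ))
    linarith
  have hps0 : 0 ≤ ps (1 / 1000) := by
    unfold ps
    have : Real.exp (-(1 / 1000 : ℝ)) ≤ 1 := by
      rw [Real.exp_le_one_iff]
      norm_num
    exact div_nonneg (by linarith) (by norm_num)
  have hc0 : (0 : ℝ) ≤ (LE Q).card := Nat.cast_nonneg _
  set E := Real.exp ((150 + 3 * (1 / 1000)) * ((h : ℝ) + 1) + 1 + (N + 1) / 900 - 7 / 50 * b) with hE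
  have hE0 : 0 < E := Real.exp_pos _
  have h3 : ((LE Q).card : ℝ) * ps (1 / 1000) ^ (N + 1) * E ≤ (LE Q).card * E := by
    refine mul_le_mul_of_nonneg_right ?_ hE0.le
    calc ((LE Q).card : ℝ) * ps (1 / 1000) ^ (N + 1) ≤ (LE Q).card * 1 :=
          mul_le_mul_of_nonneg_left (pow_le_one₀ hps0 hps) hc0
      _ = (LE Q).card := mul_one _
  have h4 : (T.card : ℝ) * Real.exp (-((N : ℝ) / 1000)) ≤ (LE Q).card * E := h1.trans (h0.trans h3)
  have h5 : Real.exp ((N : ℝ) / 1000) * E ≤ Real.exp (-((N : ℝ) / 400)) := by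
    rw [hE, ← Real.exp_add, Real.exp_le_exp]
    linarith
  have h6 : Real.exp (-((N : ℝ) / 1000)) * Real.exp ((N : ℝ) / 1000) = 1 := by
    rw [← Real.exp_add]
    simp
  calc (T.card : ℝ) = (T.card : ℝ) * Real.exp (-((N : ℝ) / 1000)) * Real.exp ((N : ℝ) / 1000) := by
        rw [mul_assoc, h6, mul_one]
    _ ≤ (LE Q).card * E * Real.exp ((N : ℝ) / 1000) :=
        mul_le_mul_of_nonneg_right h4 (Real.exp_pos _).le
    _ = (LE Q).card * (Real.exp ((N : ℝ) / 1000) * E) := by ring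
    _ ≤ (LE Q).card * Real.exp (-((N : ℝ) / 400)) := mul_le_mul_of_nonneg_left h5 hc0
    _ = _ := mul_comm _ _

/-- THE CENTRE. -/
theorem center25 : ∃ K0 : ℝ, ∀ K ≥ K0, ∀ (N h : ℕ) (Q : Rel (N + 1)) (κ lab : Fin (N + 1) → ℕ),
    1 ≤ h → 3 ≤ N + 1 → Lev h Q κ → Nat' Q lab →
    K ^ 4 * (h : ℝ) ^ 2 * Real.log (N + 1) ≤ N + 1 →
    ∀ j : ℕ, 1 ≤ j → |(N : ℝ) / 2 - j| ≤ ((N : ℝ) + 2) / (16000 * h) →
      0 < w Q lab j ∧ w Q lab (j - 1) * w Q lab (j + 1) ≤ w Q lab j ^ 2 := by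
  obtain ⟨N1, hN1⟩ := center_explicit (1 / 20) (by norm_num)
  refine ⟨max 4000 (N1 + 1), fun K hK N h Q κ lab hh hN3 hκ hn hKh => ?_⟩
  have hK1 : (4000 : ℝ) ≤ K := (le_max_left _ _).trans hK
  have hK2 : (N1 : ℝ) + 1 ≤ K := (le_max_right _ _).trans hK
  have hh' : (1 : ℝ) ≤ h := by exact_mod_cast hh
  have hN3' : (3 : ℝ) ≤ (N : ℝ) + 1 := by exact_mod_cast hN3
  have hN0 : (0 : ℝ) < N := by linarith
  have hlog : 1 ≤ Real.log ((N : ℝ) + 1) := by
    rw [Real.le_log_iff_exp_le (by linarith)]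
    have := Real.exp_one_lt_d9
    linarith
  have hK4 : (4000 : ℝ) ^ 4 ≤ K ^ 4 := pow_le_pow_left₀ (by norm_num) hK1 4
  have hKK : K ≤ K ^ 4 := by
    have h1 : (1 : ℝ) ≤ K ^ 3 := one_le_pow₀ (by linarith)
    have h2 : K ^ 4 = K * K ^ 3 := by ring
    rw [h2]
    exact le_mul_of_one_le_right (by linarith) h1
  have h1 : K ^ 4 * (h : ℝ) ^ 2 ≤ N + 1 := by
    have h2 : K ^ 4 * (h : ℝ) ^ 2 * 1 ≤ K ^ 4 * (h : ℝ) ^ 2 * Real.log (N + 1) :=
      mul_le_mul_of_nonneg_left hlog (by positivity)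
    linarith
  have hhh : (1 : ℝ) ≤ (h : ℝ) ^ 2 := one_le_pow₀ hh'
  have hK0 : (0 : ℝ) < K ^ 4 := by positivity
  have h2 : K ^ 4 ≤ N + 1 := by
    calc K ^ 4 = K ^ 4 * 1 := (mul_one _).symm
      _ ≤ K ^ 4 * (h : ℝ) ^ 2 := mul_le_mul_of_nonneg_left hhh hK0.le
      _ ≤ N + 1 := h1
  have g1 : N1 ≤ N := by
    have h3 : (N1 : ℝ) + 1 ≤ (N : ℝ) + 1 := by linarith
    have h4 : (N1 : ℝ) ≤ N := by linarith
    exact_mod_cast h4
  have h4 : (4000 : ℝ) ^ 4 * (h : ℝ) ^ 2 ≤ N + 1 := by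
    have := mul_le_mul_of_nonneg_right hK4 (sq_nonneg (h : ℝ))
    linarith
  have hNh : 20000 * (h : ℝ) ≤ N := by
    have h5 : (h : ℝ) ≤ (h : ℝ) ^ 2 := by nlinarith
    norm_num at h4
    nlinarith
  have hNh' : 20000 * h ≤ N := by exact_mod_cast hNh
  have hlog0 : 0 ≤ Real.log N := Real.log_natCast_nonneg N
  have hcon : (h : ℝ) ^ 2 * Real.log N ≤ 1 / 20 / 71680000 * N := by
    have h5 : Real.log N ≤ Real.log (N + 1) := Real.log_le_log hN0 (by linarith)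
    have h6 : (h : ℝ) ^ 2 * Real.log N ≤ (h : ℝ) ^ 2 * Real.log (N + 1) :=
      mul_le_mul_of_nonneg_left h5 (by positivity)
    have h7 : (4000 : ℝ) ^ 4 * ((h : ℝ) ^ 2 * Real.log (N + 1)) ≤ N + 1 := by
      have h8 : (4000 : ℝ) ^ 4 * ((h : ℝ) ^ 2 * Real.log (N + 1)) ≤
          K ^ 4 * ((h : ℝ) ^ 2 * Real.log (N + 1)) :=
        mul_le_mul_of_nonneg_right hK4 (by positivity)
      linarith
    norm_num at h7
    linarith
  have hm : (N + 1) / 5 * (3 + 2) ≤ N + 1 := Nat.div_mul_le_self _ _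
  exact hN1 N g1 h hh hcon Q κ lab hκ hn ((N + 1) / 5) hm (N / 20 + 1) (by
    have h1 : N ≤ 20 * (N / 20 + 1) := by omega
    have h2 : (N : ℝ) ≤ 20 * ((N / 20 + 1 : ℕ) : ℝ) := by exact_mod_cast h1
    linarith) (share25 hh hκ hn hNh' _ rfl hm _ rfl)

end Pool.SC25
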