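import Pool.Agent.HB45.Win

set_option autoImplicit false

/-!
# PH48/WinRho: window decomposition with an invariant weight
-/

open Polynomial

namespace Pool.HB45

/-- `ρ` does not change when one of the windows is rearranged inside `LE Q` -/
def WInv {N B m : ℕ} (hm : m * (B + 2) ≤ N + 1) (Q : Rel (N + 1))
    (ρ : Equiv.Perm (Fin (N + 1)) → ℝ) : Prop :=
  ∀ (k : Fin m) (g : Equiv.Perm (Fin (B + 1))), ∀ π ∈ LE Q, π * emb (win_le hm k) g ∈ LE Q →
    ρ (π * emb (win_le hm k) g) = ρ π

/-- WINDOW DECOMPOSITION with a weight `ρ` which the windows do not see. -/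
theorem win_decomp_rho {N B m : ℕ} (hm : m * (B + 2) ≤ N + 1) (Q : Rel (N + 1))
    (lab : Fin (N + 1) → ℕ) (ρ : Equiv.Perm (Fin (N + 1)) → ℝ) (hρ : WInv hm Q ρ) :
    ∑ π ∈ LE Q, C (ρ π) * X ^ des lab π = ∑ π ∈ LE Q, C (ρ π) *
      (C ((∏ k : Fin m, ((LE (winRel (win_le hm k) Q π)).card : ℝ))⁻¹) * X ^ rest lab B m π *
        ∏ k : Fin m, GW hm Q lab π k) := by
  classical
  have key : ∀ K : Finset (Fin m), ∑ π ∈ LE Q, C (ρ π) * X ^ des lab π = ∑ π ∈ LE Q, C (ρ π) *
      (C ((∏ k ∈ K, ((LE (winRel (win_le hm k) Q π)).card : ℝ))⁻¹) *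
        X ^ (rest lab B m π + ∑ k ∈ Kᶜ, desB (fun i => lab (π (wpos (win_le hm k) i)))
          (cB lab B k.val π) (dB lab B k.val π) 1) * ∏ k ∈ K, GW hm Q lab π k) := by
    intro K
    induction K using Finset.induction_on with
    | empty =>
      refine Finset.sum_congr rfl fun π _ => ?_
      rw [Finset.prod_empty, Finset.prod_empty, inv_one, map_one, one_mul, mul_one,
        Finset.compl_empty, des_eq_sum hm lab π, add_comm]
    | insert k K hk ih =>
      rw [ih, avg (win_le hm k)]
      refine Finset.sum_congr rfl fun π hπ => ?_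
      have hKc : Kᶜ = insert k (insert k K)ᶜ := by
        ext l
        simp only [Finset.mem_compl, Finset.mem_insert]
        constructor
        · intro hl
          by_cases h : l = k
          · exact Or.inl h
          · exact Or.inr fun h' => h'.elim h hl
        · rintro (rfl | h)
          · exact hk
          · exact fun h' => h (Or.inr h')
      have hkc : k ∉ (insert k K)ᶜ := by
        simp
      have hF : ∀ g ∈ LE (winRel (win_le hm k) Q π),
          C (ρ (π * emb (win_le hm k) g)) *
          (C ((∏ l ∈ K, ((LE (winRel (win_le hm l) Q (π * emb (win_le hm k) g))).card : ℝ))⁻¹) *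
            X ^ (rest lab B m (π * emb (win_le hm k) g) + ∑ l ∈ Kᶜ,
              desB (fun i => lab ((π * emb (win_le hm k) g) (wpos (win_le hm l) i)))
                (cB lab B l.val (π * emb (win_le hm k) g))
                (dB lab B l.val (π * emb (win_le hm k) g)) 1) *
            ∏ l ∈ K, GW hm Q lab (π * emb (win_le hm k) g) l) =
          C (ρ π) * (C ((∏ l ∈ K, ((LE (winRel (win_le hm l) Q π)).card : ℝ))⁻¹) *
            X ^ (rest lab B m π + ∑ l ∈ (insert k K)ᶜ,
              desB (fun i => lab (π (wpos (win_le hm l) i))) (cB lab B l.val π)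
                (dB lab B l.val π) 1) * (∏ l ∈ K, GW hm Q lab π l)) *
            X ^ desB (fun i => lab (π (wpos (win_le hm k) i))) (cB lab B k.val π)
              (dB lab B k.val π) g := by
        intro g hg
        have h0 : ρ (π * emb (win_le hm k) g) = ρ π :=
          hρ k g π hπ ((mul_emb_mem (win_le hm k) π hπ g).2 hg)
        have h1 : ∏ l ∈ K, ((LE (winRel (win_le hm l) Q (π * emb (win_le hm k) g))).card : ℝ) =
            ∏ l ∈ K, ((LE (winRel (win_le hm l) Q π)).card : ℝ) :=
          Finset.prod_congr rfl fun l hl => by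
            rw [(GW_win hm Q lab π k l (fun h => hk (h ▸ hl)) g).2.1]
        have h2 : ∏ l ∈ K, GW hm Q lab (π * emb (win_le hm k) g) l = ∏ l ∈ K, GW hm Q lab π l :=
          Finset.prod_congr rfl fun l hl => (GW_win hm Q lab π k l (fun h => hk (h ▸ hl)) g).1
        have h3 : ∑ l ∈ (insert k K)ᶜ,
              desB (fun i => lab ((π * emb (win_le hm k) g) (wpos (win_le hm l) i)))
                (cB lab B l.val (π * emb (win_le hm k) g))
                (dB lab B l.val (π * emb (win_le hm k) g)) 1 =
            ∑ l ∈ (insert k K)ᶜ, desB (fun i => lab (π (wpos (win_le hm l) i)))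
                (cB lab B l.val π) (dB lab B l.val π) 1 :=
          Finset.sum_congr rfl fun l hl =>
            (GW_win hm Q lab π k l (fun h => hkc (h ▸ hl)) g).2.2.1
        have h4 : rest lab B m (π * emb (win_le hm k) g) = rest lab B m π := by
          unfold rest
          congr 1
          refine Finset.filter_congr fun p _ => ?_
          refine and_congr_right fun hp => ?_
          have hk : (k.val + 1) * (B + 2) ≤ m * (B + 2) := Nat.mul_le_mul_right _ k.isLt
          rw [Nat.add_mul] at hk
          rw [Equiv.Perm.mul_apply, Equiv.Perm.mul_apply,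
            emb_of_not (win_le hm k) g p.succ (by rw [Fin.val_succ]; omega),
            emb_of_not (win_le hm k) g p.castSucc (by rw [Fin.val_castSucc]; omega)]
        rw [h0, h1, h2, h4, hKc, Finset.sum_insert hkc, h3, desB_win hm lab π k g]
        ring
      rw [Finset.sum_congr rfl hF, ← Finset.mul_sum]
      have hG : ∑ g ∈ LE (winRel (win_le hm k) Q π),
          (X : ℝ[X]) ^ desB (fun i => lab (π (wpos (win_le hm k) i))) (cB lab B k.val π)
              (dB lab B k.val π) g = GW hm Q lab π k := rfl
      rw [hG, Finset.prod_insert hk, Finset.prod_insert hk, mul_inv, map_mul,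
        Polynomial.smul_eq_C_mul]
      ring
  have h := key Finset.univ
  rw [h]
  refine Finset.sum_congr rfl fun π _ => ?_
  rw [Finset.compl_univ, Finset.sum_empty, add_zero]

/-- the number of antichain windows (four letters, positions `5 k, …, 5 k + 3`) -/
noncomputable def na {N m : ℕ} (hm : m * (3 + 2) ≤ N + 1) (Q : Rel (N + 1))
    (π : Equiv.Perm (Fin (N + 1))) : ℕ := by
  classical
  exact (Finset.univ.filter fun k : Fin m => Anti (win_le hm k) Q π).card

theorem anti_mul_emb {n o f : ℕ} {Q : Rel n} (hof : o + f ≤ n) (π : Equiv.Perm (Fin n))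
    (g : Equiv.Perm (Fin f)) : Anti hof Q (π * emb hof g) ↔ Anti hof Q π := by
  unfold Anti
  constructor
  · intro h i j hij
    have := h (g.symm i) (g.symm j)
    rw [winRel_mul_emb] at this
    simp only [Equiv.apply_symm_apply] at this
    exact this hij
  · intro h i j hij
    rw [winRel_mul_emb] at hij
    exact h _ _ hij

theorem na_mul_emb {N m : ℕ} (hm : m * (3 + 2) ≤ N + 1) (Q : Rel (N + 1))
    (π : Equiv.Perm (Fin (N + 1))) (k : Fin m) (g : Equiv.Perm (Fin (3 + 1))) :
    na hm Q (π * emb (win_le hm k) g) = na hm Q π := by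
  classical
  unfold na
  congr 1
  refine Finset.filter_congr fun l _ => ?_
  by_cases hkl : l = k
  · subst hkl
    exact anti_mul_emb (win_le hm l) π g
  · have hkl' : l.val ≠ k.val := fun h => hkl (Fin.ext h)
    have h1 : winRel (win_le hm l) Q (π * emb (win_le hm k) g) = winRel (win_le hm l) Q π :=
      winRel_mul_emb_of_disj (win_le hm l) (win_le hm k) (win_disj 3 hkl') π g
    unfold Anti
    rw [h1]

end Pool.HB45
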