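import Pool.Agent.PH48.Cen25
import Pool.Agent.SC25.Reg

set_option autoImplicit false

/-!
# PH48/Fin25: the short chains theorem
-/

open Polynomial

namespace Pool.SC25

open Pool.HB45 Pool.HM63 Pool.PH43

/-- the lower half: increasing, then log-concave -/
theorem lower25 : ∃ K0 : ℝ, 4000 ≤ K0 ∧ ∀ K ≥ K0, ∀ (N h : ℕ) (Q : Rel (N + 1))
    (κ lab : Fin (N + 1) → ℕ), 1 ≤ h → 3 ≤ N + 1 → Lev h Q κ → Nat' Q lab →
    K ^ 4 * (h : ℝ) ^ 2 * Real.log (N + 1) ≤ N + 1 →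
    (∀ j : ℕ, (j : ℝ) ≤ ((N : ℝ) + 1) / 2 - K / 4 * Real.sqrt ((N + 1) * Real.log (N + 1)) →
      w Q lab j ≤ w Q lab (j + 1)) ∧
    (∀ j : ℕ, ((N : ℝ) + 1) / 2 - K / 4 * Real.sqrt ((N + 1) * Real.log (N + 1)) < (j : ℝ) →
      2 * j < N → 0 < w Q lab j ∧ w Q lab (j - 1) * w Q lab (j + 1) ≤ w Q lab j ^ 2) := by
  obtain ⟨K1, hK1⟩ := main_regime
  obtain ⟨K2, hK2⟩ := center25
  refine ⟨max 4000 (max K1 K2), le_max_left _ _, fun K hK N h Q κ lab hh hN3 hκ hn hKh => ?_⟩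
  have g0 : (4000 : ℝ) ≤ K := (le_max_left _ _).trans hK
  have g1 : K1 ≤ K := (le_max_left _ _).trans ((le_max_right _ _).trans hK)
  have g2 : K2 ≤ K := (le_max_right _ _).trans ((le_max_right _ _).trans hK)
  have hh' : (1 : ℝ) ≤ h := by exact_mod_cast hh
  have hN3' : (3 : ℝ) ≤ (N : ℝ) + 1 := by exact_mod_cast hN3
  have hlog : 1 ≤ Real.log ((N : ℝ) + 1) := by
    rw [Real.le_log_iff_exp_le (by linarith)]
    have := Real.exp_one_lt_d9
    linarith
  have hhh : (h : ℝ) ≤ (h : ℝ) ^ 2 := by nlinarith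
  have hK4 : (4000 : ℝ) ^ 4 ≤ K ^ 4 := pow_le_pow_left₀ (by norm_num) g0 4
  have hNh : 20000 * (h : ℝ) ≤ N := by
    have h1 : K ^ 4 * (h : ℝ) ^ 2 ≤ N + 1 := by
      have h2 : K ^ 4 * (h : ℝ) ^ 2 * 1 ≤ K ^ 4 * (h : ℝ) ^ 2 * Real.log (N + 1) :=
        mul_le_mul_of_nonneg_left hlog (by positivity)
      linarith
    have h4 : (4000 : ℝ) ^ 4 * (h : ℝ) ^ 2 ≤ N + 1 := by
      have := mul_le_mul_of_nonneg_right hK4 (sq_nonneg (h : ℝ))
      linarith
    norm_num at h4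
    linarith
  have hNhN : 20000 * h ≤ N := by exact_mod_cast hNh
  -- the root is small
  have hroot : K * Real.sqrt (((N : ℝ) + 1) * Real.log (N + 1)) ≤ ((N : ℝ) + 1) / (4000 * h) := by
    have hK0 : (0 : ℝ) < K := by linarith
    have hL0 : 0 ≤ ((N : ℝ) + 1) * Real.log (N + 1) := by positivity
    rw [← Real.sqrt_sq hK0.le, ← Real.sqrt_mul (sq_nonneg K)]
    refine Real.sqrt_le_iff.2 ⟨by positivity, ?_⟩
    rw [div_pow, le_div_iff₀ (by positivity)]
    have h1 : (4000 * (h : ℝ)) ^ 2 ≤ K ^ 2 * (h : ℝ) ^ 2 := by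
      rw [mul_pow]
      exact mul_le_mul_of_nonneg_right (pow_le_pow_left₀ (by norm_num) g0 2) (sq_nonneg _)
    calc K ^ 2 * (((N : ℝ) + 1) * Real.log (N + 1)) * (4000 * (h : ℝ)) ^ 2
        ≤ K ^ 2 * (((N : ℝ) + 1) * Real.log (N + 1)) * (K ^ 2 * (h : ℝ) ^ 2) :=
          mul_le_mul_of_nonneg_left h1 (by positivity)
      _ = ((N : ℝ) + 1) * (K ^ 4 * (h : ℝ) ^ 2 * Real.log (N + 1)) := by ring
      _ ≤ ((N : ℝ) + 1) * ((N : ℝ) + 1) := mul_le_mul_of_nonneg_left hKh (by linarith)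
      _ = ((N : ℝ) + 1) ^ 2 := by ring
  have hroot' : K / 4 * Real.sqrt (((N : ℝ) + 1) * Real.log (N + 1)) ≤
      ((N : ℝ) + 1) / (16000 * h) := by
    have h1 : ((N : ℝ) + 1) / (16000 * h) = ((N : ℝ) + 1) / (4000 * h) / 4 := by
      field_simp
      norm_num
    rw [h1]
    linarith
  have hq : ((N : ℝ) + 1) / (16000 * h) ≤ ((N : ℝ) + 1) / 16000 := by
    apply div_le_div_of_nonneg_left (by linarith) (by norm_num)
    linarith
  refine ⟨fun j hj => ?_, fun j hj hj' => ?_⟩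
  · -- increasing
    have key : ∀ j : ℕ, (j : ℝ) ≤ ((N : ℝ) + 1) / 2 -
        K / 4 * Real.sqrt ((N + 1) * Real.log (N + 1)) →
        (∀ i ≤ j, w Q lab i ≤ w Q lab j) ∧ w Q lab j ≤ w Q lab (j + 1) := by
      intro j
      induction j with
      | zero =>
        intro _
        refine ⟨fun i hi => ?_, small hh hκ hn (by omega)⟩
        have : i = 0 := by omega
        rw [this]
      | succ j ih =>
        intro hj1
        have h1 := ih (by
          push_cast at hj1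
          linarith)
        have h2 : ∀ i ≤ j + 1, w Q lab i ≤ w Q lab (j + 1) := by
          intro i hi
          rcases Nat.lt_or_ge j i with h3 | h3
          · have h4 : i = j + 1 := by omega
            rw [h4]
          · exact (h1.1 i h3).trans h1.2
        refine ⟨h2, ?_⟩
        by_cases h3 : h * (4 * (j + 1) + 1) ≤ N
        · exact small hh hκ hn h3
        · refine hK1 K g1 N h (j + 1) Q κ lab hh hN3 hκ hn hKh ?_ hj1 h2
          have h4 : N < h * (4 * (j + 1) + 1) := not_le.1 h3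
          have h5 : h * (4 * (j + 1) + 1) = 4 * (h * (j + 1)) + h := by ring
          have h6 : 7 * h * (j + 1) = 7 * (h * (j + 1)) := by ring
          rw [h6]
          rw [h5] at h4
          omega
    exact (key j hj).2
  · have hj2 : 2 * (j : ℝ) < N := by exact_mod_cast hj'
    have hj1 : 1 ≤ j := by
      by_contra h0
      have h1 : j = 0 := by omega
      rw [h1] at hj
      push_cast at hj
      linarith
    refine hK2 K g2 N h Q κ lab hh hN3 hκ hn hKh j hj1 ?_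
    rw [abs_of_pos (by linarith)]
    have h1 : ((N : ℝ) + 1) / (16000 * h) ≤ ((N : ℝ) + 2) / (16000 * h) := by
      apply div_le_div_of_nonneg_right _ (by positivity)
      linarith
    linarith

/-- SHORT CHAINS, with a constant `K`. -/
theorem short_chains_K : ∃ K0 : ℝ, 4000 ≤ K0 ∧ ∀ K ≥ K0, ∀ (n : ℕ), 3 ≤ n → ∀ h : ℕ,
    K ^ 4 * (h : ℝ) ^ 2 * Real.log n ≤ n →
    ∀ (α : Type) [Fintype α] [PartialOrder α]
    (f : α ≃ Fin n), (∀ x y : α, x < y → f x < f y) →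
      (∀ s : Finset α, IsChain (· ≤ ·) (s : Set α) → s.card ≤ h) →
      ∃ m : ℕ, ∀ k : ℕ, (k < m → dn f k ≤ dn f (k + 1)) ∧ (m ≤ k → dn f (k + 1) ≤ dn f k) := by
  obtain ⟨K0, hK0, hlow⟩ := lower25
  refine ⟨K0, hK0, fun K hK n hn3 h hKh α _ _ f hf hs => ?_⟩
  obtain ⟨N, rfl⟩ : ∃ N, n = N + 1 := ⟨n - 1, by omega⟩
  have hne : Nonempty α := ⟨f.symm 0⟩
  have hcard : Fintype.card α = N + 1 := by rw [Fintype.card_congr f, Fintype.card_fin]
  have hh : 1 ≤ h := by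
    have := hs {f.symm 0} (by simp)
    rwa [Finset.card_singleton] at this
  obtain ⟨κ, hκ⟩ := exists_lev f hs
  push_cast at hKh
  obtain ⟨h1, h2⟩ := hlow K hK N h (rel f) κ (fun a => a.val) hh hn3 hκ (nat_rel f hf) hKh
  refine combine (dn f) (fun j => (j : ℝ) ≤ ((N : ℝ) + 1) / 2 -
    K / 4 * Real.sqrt ((N + 1) * Real.log (N + 1))) (fun j => N ≤ 2 * j) ?_ ?_ ?_ ?_ ?_ ?_
  · intro j hj
    rw [dn_eq, dn_eq]
    exact h1 j hj
  · intro j hj hj'
    rw [dn_eq, dn_eq, dn_eq]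
    exact h2 j (not_le.1 hj) (not_le.1 hj')
  · intro j hj
    push_cast at hj
    linarith
  · intro j hj
    omega
  · intro j hj
    exact upper (N + 1) hcard f hf j (by omega)
  · exact ⟨N, by omega⟩

/-- SHORT CHAINS. Every poset with `n ≥ 3` elements all of whose chains have at most `c √(n / log n)`
elements has a unimodal descent sequence for every natural labelling. -/
theorem short_chains : ∃ c : ℝ, 0 < c ∧ ∀ (n : ℕ), 3 ≤ n → ∀ (α : Type) [Fintype α] [PartialOrder α]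
    (f : α ≃ Fin n), (∀ x y : α, x < y → f x < f y) →
      (∀ s : Finset α, IsChain (· ≤ ·) (s : Set α) → (s.card : ℝ) ≤ c * Real.sqrt (n / Real.log n)) →
      ∃ m : ℕ, ∀ k : ℕ, (k < m → dn f k ≤ dn f (k + 1)) ∧ (m ≤ k → dn f (k + 1) ≤ dn f k) := by
  obtain ⟨K, hK, hsc⟩ := short_chains_K
  have hK0 : 0 < K := by linarith
  refine ⟨1 / K ^ 2, by positivity, fun n hn3 α _ _ f hf hs => ?_⟩
  have hn3' : (3 : ℝ) ≤ n := by exact_mod_cast hn3
  have hlog : 1 ≤ Real.log (n : ℝ) := by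
    rw [Real.le_log_iff_exp_le (by linarith)]
    have := Real.exp_one_lt_d9
    linarith
  have hX0 : 0 ≤ 1 / K ^ 2 * Real.sqrt (n / Real.log n) := by positivity
  refine hsc K le_rfl n hn3 ⌊1 / K ^ 2 * Real.sqrt (n / Real.log n)⌋₊ ?_ α f hf
    (fun s hs' => Nat.le_floor (hs s hs'))
  have h1 : (⌊1 / K ^ 2 * Real.sqrt (n / Real.log n)⌋₊ : ℝ) ≤
      1 / K ^ 2 * Real.sqrt (n / Real.log n) := Nat.floor_le hX0
  have h2 : (⌊1 / K ^ 2 * Real.sqrt (n / Real.log n)⌋₊ : ℝ) ^ 2 ≤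
      (1 / K ^ 2 * Real.sqrt (n / Real.log n)) ^ 2 := pow_le_pow_left₀ (Nat.cast_nonneg _) h1 2
  have h3 : (1 / K ^ 2 * Real.sqrt (n / Real.log n)) ^ 2 = 1 / K ^ 4 * (n / Real.log n) := by
    rw [mul_pow, Real.sq_sqrt (by positivity)]
    congr 1
    field_simp
  rw [h3] at h2
  have hL0 : 0 ≤ Real.log (n : ℝ) := by linarith
  have h4 : K ^ 4 * (⌊1 / K ^ 2 * Real.sqrt (n / Real.log n)⌋₊ : ℝ) ^ 2 * Real.log n ≤
      K ^ 4 * (1 / K ^ 4 * (n / Real.log n)) * Real.log n :=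
    mul_le_mul_of_nonneg_right (mul_le_mul_of_nonneg_left h2 (by positivity)) hL0
  have h5 : K ^ 4 * (1 / K ^ 4 * ((n : ℝ) / Real.log n)) * Real.log n = n := by
    have hL : Real.log (n : ℝ) ≠ 0 := by linarith
    field_simp
  rw [h5] at h4
  exact h4

end Pool.SC25
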