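import Pool.Agent.PH48.Decay
import Pool.Agent.HB45.Near
import Pool.Agent.HB45.Psi

set_option autoImplicit false

/-!
# PH48/Bad: the weight of few words, near `r = 1`
-/

open Polynomial

namespace Pool.HB45

theorem one_le_Sr (s : ℝ) : 1 ≤ Sr s := by
  unfold Sr
  have h1 : ∫ x in (-(1/2) : ℝ)..(1/2), (1 + s * x) = 1 := by
    rw [intervalIntegral.integral_add (by simp)
      ((by fun_prop : Continuous fun x : ℝ => s * x).intervalIntegrable _ _),
      intervalIntegral.integral_const_mul, integral_id, intervalIntegral.integral_const]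
    norm_num
  calc (1 : ℝ) = ∫ x in (-(1/2) : ℝ)..(1/2), (1 + s * x) := h1.symm
    _ ≤ _ := by
      refine intervalIntegral.integral_mono_on (by norm_num)
        ((by fun_prop : Continuous fun x : ℝ => 1 + s * x).intervalIntegrable _ _)
        ((by fun_prop : Continuous fun x : ℝ => Real.exp (s * x)).intervalIntegrable _ _) ?_
      intro x _
      have := Real.add_one_le_exp (s * x)
      linarith

theorem des_le {N : ℕ} (lab : Fin (N + 1) → ℕ) (g : Equiv.Perm (Fin (N + 1))) : des lab g ≤ N := by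
  unfold des
  refine le_trans (Finset.card_le_univ _) ?_
  rw [Fintype.card_fin]

theorem aeval_ofReal_Wp {N : ℕ} (Q : Rel (N + 1)) (lab : Fin (N + 1) → ℕ) (r : ℝ) :
    aeval (r : ℂ) (Wp Q lab) = (((Wp Q lab).eval r : ℝ) : ℂ) := by
  have h3 := Polynomial.aeval_algebraMap_apply ℂ r (Wp Q lab)
  rw [Polynomial.coe_aeval_eq_eval] at h3
  exact h3

/-- lower bound of `W` near `1` -/
theorem Wp_ge {N h : ℕ} (hh : 1 ≤ h) {Q : Rel (N + 1)} {κ lab : Fin (N + 1) → ℕ} (hκ : Lev h Q κ)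
    (hn : Nat' Q lab) (s : ℝ) (hs : |s| ≤ 1 / (400 * h)) :
    15 / 16 * (LE Q).card * Real.exp (-(s * N / 2)) ≤ (Wp Q lab).eval (Real.exp (-s)) := by
  have h1 := near_one hh hκ hn (s : ℂ) (by rwa [Complex.norm_real])
  have h2 : Wc Q lab (Complex.exp (-(s : ℂ))) = (((Wp Q lab).eval (Real.exp (-s)) : ℝ) : ℂ) := by
    rw [← aeval_ofReal_Wp, ← aeval_Wp, Complex.ofReal_exp, Complex.ofReal_neg]
  have h3 : Complex.exp ((s : ℂ) * N / 2) = ((Real.exp (s * N / 2) : ℝ) : ℂ) := by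
    rw [Complex.ofReal_exp]
    congr 1
    push_cast
    ring
  rw [h2, h3, S_ofReal] at h1
  have h4 : (((Wp Q lab).eval (Real.exp (-s)) : ℝ) : ℂ) * ((Real.exp (s * N / 2) : ℝ) : ℂ) -
      ((LE Q).card : ℂ) * (Sr s : ℂ) ^ (N + 2) =
      (((Wp Q lab).eval (Real.exp (-s)) * Real.exp (s * N / 2) - (LE Q).card * Sr s ^ (N + 2) : ℝ) :
        ℂ) := by
    push_cast
    ring
  rw [h4, Complex.norm_real, Complex.norm_real, Real.norm_eq_abs, Real.norm_eq_abs,
    abs_of_pos (Sr_pos s)] at h1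
  have h5 := (abs_le.1 h1).1
  have h6 : (1 : ℝ) ≤ Sr s ^ (N + 2) := one_le_pow₀ (one_le_Sr s)
  have h7 : (0 : ℝ) ≤ (LE Q).card := Nat.cast_nonneg _
  have h8 : 15 / 16 * ((LE Q).card : ℝ) ≤ (Wp Q lab).eval (Real.exp (-s)) * Real.exp (s * N / 2) := by
    have := mul_le_mul_of_nonneg_left h6 h7
    linarith
  have h9 : Real.exp (s * N / 2) * Real.exp (-(s * N / 2)) = 1 := by
    rw [← Real.exp_add]
    simp
  calc 15 / 16 * ((LE Q).card : ℝ) * Real.exp (-(s * N / 2))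
      ≤ (Wp Q lab).eval (Real.exp (-s)) * Real.exp (s * N / 2) * Real.exp (-(s * N / 2)) :=
        mul_le_mul_of_nonneg_right h8 (Real.exp_pos _).le
    _ = (Wp Q lab).eval (Real.exp (-s)) := by rw [mul_assoc, h9, mul_one]

/-- the weight of a set of words -/
theorem bad_le {N h : ℕ} (hh : 1 ≤ h) {Q : Rel (N + 1)} {κ lab : Fin (N + 1) → ℕ} (hκ : Lev h Q κ)
    (hn : Nat' Q lab) (s ε : ℝ) (hs : |s| ≤ 1 / (400 * h)) (hε : 0 ≤ ε)
    (T : Finset (Equiv.Perm (Fin (N + 1)))) (hT : (T.card : ℝ) ≤ ε * (LE Q).card) :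
    ∑ π ∈ T, Real.exp (-s) ^ des lab π ≤
      16 / 15 * Real.exp (|s| * N / 2) * ε * (Wp Q lab).eval (Real.exp (-s)) := by
  have h1 : ∀ π ∈ T, Real.exp (-s) ^ des lab π ≤
      Real.exp (|s| * N / 2) * Real.exp (-(s * N / 2)) := by
    intro π _
    rw [← Real.exp_nat_mul, ← Real.exp_add, Real.exp_le_exp]
    have h2 : (des lab π : ℝ) ≤ N := by exact_mod_cast des_le lab π
    have h3 : (0 : ℝ) ≤ des lab π := Nat.cast_nonneg _
    have h4 : |(N : ℝ) / 2 - des lab π| ≤ N / 2 := by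
      rw [abs_le]
      constructor <;> linarith
    have h5 : s * ((N : ℝ) / 2 - des lab π) ≤ |s| * (N / 2) := by
      refine (le_abs_self _).trans ?_
      rw [abs_mul]
      exact mul_le_mul_of_nonneg_left h4 (abs_nonneg _)
    nlinarith
  have h2 := Finset.sum_le_sum h1
  rw [Finset.sum_const, nsmul_eq_mul] at h2
  have h3 := Wp_ge hh hκ hn s hs
  have h4 : 0 < Real.exp (|s| * N / 2) := Real.exp_pos _
  have h5 : 0 < Real.exp (-(s * N / 2)) := Real.exp_pos _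
  calc _ ≤ (T.card : ℝ) * (Real.exp (|s| * N / 2) * Real.exp (-(s * N / 2))) := h2
    _ ≤ ε * (LE Q).card * (Real.exp (|s| * N / 2) * Real.exp (-(s * N / 2))) :=
        mul_le_mul_of_nonneg_right hT (by positivity)
    _ = 16 / 15 * Real.exp (|s| * N / 2) * ε *
          (15 / 16 * (LE Q).card * Real.exp (-(s * N / 2))) := by ring
    _ ≤ _ := mul_le_mul_of_nonneg_left h3 (by positivity)

/-- `1 - cos x ≥ x²/4` -/
theorem cos_le_quarter (x θ : ℝ) (hx : 0 ≤ x) (hx1 : x ≤ 1) (h1 : x ≤ |θ|) (h2 : |θ| ≤ Real.pi) :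
    x ^ 2 / 4 ≤ 1 - Real.cos θ := by
  have h4 : Real.cos θ ≤ Real.cos x := by
    rw [← Real.cos_abs θ]
    exact Real.cos_le_cos_of_nonneg_of_le_pi hx h2 h1
  have h5 := Real.cos_bound (x := x) (by rw [abs_of_nonneg hx]; exact hx1)
  have h6 := (abs_le.mp h5).2
  rw [abs_of_nonneg hx] at h6
  have h7 : x ^ 4 ≤ x ^ 2 := by
    have : x ^ 2 ≤ 1 := by nlinarith
    nlinarith [sq_nonneg x]
  nlinarith [sq_nonneg x]

end Pool.HB45
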