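import Pool.Agent.PH48.CentQ

set_option autoImplicit false

/-!
# PH48/CentAbs: log-concavity in the middle, with an explicit error
-/

open Polynomial

namespace Pool.HB45

/-- As `cent_abstract`, for one `N`; the values of `A` at distance `≥ δ/2` from the positive axis are
`≤ η A(r)` with `40 η ≤ (1/24) / (N+2)³`. -/
theorem cent_abstract_q (N : ℕ) (δ η : ℝ) (hδ : 0 < δ) (hδ1 : δ ≤ 1 / 10)
    (hcen : ∀ s : ℝ, |s| ≤ 1 / 10 →
      1 / 24 * (1 / ((N : ℝ) + 2)) ^ 3 < ∫ θ in (-(δ / 2))..(δ / 2),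
        ((psi s θ ^ (N + 2)).re - 1 / 16 * ‖psi s θ‖ ^ (N + 2)) * (2 - 2 * Real.cos θ))
    (hη0 : 0 ≤ η) (hη : 40 * η ≤ 1 / 24 * (1 / ((N : ℝ) + 2)) ^ 3) (A : ℝ[X]) (e : ℝ) (he : 0 < e)
    (hA : ∀ k, 0 ≤ A.coeff k)
    (hnear : ∀ s : ℂ, ‖s‖ ≤ δ →
      ‖aeval (Complex.exp (-s)) A * Complex.exp (s * N / 2) - e * S s ^ (N + 2)‖ ≤
        1 / 16 * (e * ‖S s‖ ^ (N + 2)))
    (hdec : ∀ s0 θ : ℝ, |s0| ≤ δ / 2 → δ / 2 ≤ |θ| → |θ| ≤ Real.pi →
        ‖aeval ((Real.exp (-s0) : ℂ) * Complex.exp (θ * Complex.I)) A‖ ≤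
          η * A.eval (Real.exp (-s0))) :
      ∀ j : ℕ, 1 ≤ j → |(N : ℝ) / 2 - j| ≤ δ / 40 * (N + 2) →
        0 < A.coeff j ∧ A.coeff (j - 1) * A.coeff (j + 1) ≤ A.coeff j ^ 2 := by
  intro j hj hjN
  have hpi := Real.pi_gt_three
  have hM : (0 : ℝ) < (N : ℝ) + 2 := by positivity
  -- the tilt
  obtain ⟨s0, hs0, hmu⟩ := exists_tilt (δ / 2) (((N : ℝ) / 2 - j) / (N + 2)) (by linarith)
    (by linarith) (by
      rw [abs_div, abs_of_pos hM, div_le_iff₀ hM]
      linarith)
  have hs0' := abs_le.mp hs0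
  set r := Real.exp (-s0) with hr
  have hr0 : 0 < r := Real.exp_pos _
  set E0 := e * Real.exp (-(s0 * N / 2)) * Sr s0 ^ (N + 2) with hE0
  have hE0pos : 0 < E0 := by
    have := Sr_pos s0
    positivity
  -- the approximation for small angles
  have happ : ∀ θ : ℝ, |θ| ≤ δ / 2 →
      ‖aeval ((r : ℂ) * Complex.exp (θ * Complex.I)) A * Complex.exp (-(j * θ * Complex.I)) -
        (E0 : ℂ) * psi s0 θ ^ (N + 2)‖ ≤ 1 / 16 * (E0 * ‖psi s0 θ‖ ^ (N + 2)) := by
    intro θ hθ
    refine cent_phase A N j e s0 θ hmu (hnear _ ?_)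
    calc ‖(s0 : ℂ) - θ * Complex.I‖ ≤ ‖(s0 : ℂ)‖ + ‖(θ : ℂ) * Complex.I‖ := norm_sub_le _ _
      _ = |s0| + |θ| := by simp
      _ ≤ δ := by linarith
  have hAr : A.eval r ≤ 17 / 16 * E0 := by
    have h := happ 0 (by simp; linarith)
    rw [cent_psi_zero] at h
    simp only [Complex.ofReal_zero, zero_mul, Complex.exp_zero, mul_one, mul_zero, neg_zero,
      one_pow, norm_one] at h
    have h2 : aeval (r : ℂ) A = ((A.eval r : ℝ) : ℂ) := by
      have h3 := Polynomial.aeval_algebraMap_apply ℂ r A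
      rw [Polynomial.coe_aeval_eq_eval] at h3
      exact h3
    rw [h2, ← Complex.ofReal_sub, Complex.norm_real, Real.norm_eq_abs] at h
    have := (abs_le.mp h).2
    linarith
  set F : ℝ → ℝ := fun θ : ℝ => (aeval ((r : ℂ) * Complex.exp (θ * Complex.I)) A *
        Complex.exp (-(j * θ * Complex.I))).re * (2 - 2 * Real.cos θ) with hF
  have hFc : Continuous F := cent_F_continuous A r j
  have hsd := second_diff A r j hj
  have hsplit : ∫ θ in (-Real.pi)..Real.pi, F θ =
      (∫ θ in (-Real.pi)..(-(δ / 2)), F θ) + (∫ θ in (-(δ / 2))..(δ / 2), F θ) +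
        ∫ θ in (δ / 2)..Real.pi, F θ := by
    rw [intervalIntegral.integral_add_adjacent_intervals (hFc.intervalIntegrable _ _)
      (hFc.intervalIntegrable _ _), intervalIntegral.integral_add_adjacent_intervals
      (hFc.intervalIntegrable _ _) (hFc.intervalIntegrable _ _)]
  -- the middle
  have hmid : E0 * (40 * η) < ∫ θ in (-(δ / 2))..(δ / 2), F θ := by
    have h1 := hη.trans_lt (hcen s0 (by linarith))
    have h2 : E0 * (∫ θ in (-(δ / 2))..(δ / 2),
        ((psi s0 θ ^ (N + 2)).re - 1 / 16 * ‖psi s0 θ‖ ^ (N + 2)) * (2 - 2 * Real.cos θ)) ≤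
        ∫ θ in (-(δ / 2))..(δ / 2), F θ := by
      rw [← intervalIntegral.integral_const_mul]
      have hpc := cent_psi_continuous s0
      refine intervalIntegral.integral_mono_on (by linarith) ?_ (hFc.intervalIntegrable _ _) ?_
      · apply Continuous.intervalIntegrable
        have h3 : Continuous fun θ : ℝ => (psi s0 θ ^ (N + 2)).re :=
          Complex.continuous_re.comp (hpc.pow _)
        have h4 : Continuous fun θ : ℝ => ‖psi s0 θ‖ ^ (N + 2) := hpc.norm.pow _
        fun_prop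
      · intro θ hθ
        have hθ' : |θ| ≤ δ / 2 := abs_le.mpr ⟨hθ.1, hθ.2⟩
        have h5 := happ θ hθ'
        have h6 : 0 ≤ 2 - 2 * Real.cos θ := by
          have := Real.cos_le_one θ
          linarith
        rw [← mul_assoc]
        refine mul_le_mul_of_nonneg_right ?_ h6
        have h7 := (Complex.abs_re_le_norm _).trans h5
        rw [Complex.sub_re, Complex.re_ofReal_mul] at h7
        have h8 := (abs_le.mp h7).1
        linarith
    exact (mul_lt_mul_of_pos_left h1 hE0pos).trans_le h2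
  -- the rest
  have hbd : ∀ θ : ℝ, δ / 2 ≤ |θ| → |θ| ≤ Real.pi →
      ‖F θ‖ ≤ 17 / 4 * (E0 * η) := by
    intro θ h1 h2
    have h3 := hdec s0 θ hs0 h1 h2
    have hA0 : 0 ≤ A.eval r := by
      rw [Polynomial.eval_eq_sum_range]
      exact Finset.sum_nonneg fun i _ => mul_nonneg (hA i) (pow_nonneg hr0.le _)
    have h7 : ‖aeval ((r : ℂ) * Complex.exp (θ * Complex.I)) A‖ ≤ η * (17 / 16 * E0) :=
      h3.trans (mul_le_mul_of_nonneg_left hAr hη0)
    have h8 : |2 - 2 * Real.cos θ| ≤ 4 := by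
      have := Real.cos_le_one θ
      have := Real.neg_one_le_cos θ
      rw [abs_le]
      constructor <;> linarith
    have h9 : ‖Complex.exp (-(j * θ * Complex.I))‖ = 1 := by
      have : (-(j * θ * Complex.I) : ℂ) = ((-(j * θ) : ℝ) : ℂ) * Complex.I := by
        push_cast
        ring
      rw [this, Complex.norm_exp_ofReal_mul_I]
    have h10 : |(aeval ((r : ℂ) * Complex.exp (θ * Complex.I)) A *
        Complex.exp (-(j * θ * Complex.I))).re| ≤ η * (17 / 16 * E0) := by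
      refine (Complex.abs_re_le_norm _).trans ?_
      rw [norm_mul, h9, mul_one]
      exact h7
    rw [hF, Real.norm_eq_abs, abs_mul]
    calc _ ≤ η * (17 / 16 * E0) * 4 :=
          mul_le_mul h10 h8 (abs_nonneg _) (by positivity)
      _ = 17 / 4 * (E0 * η) := by ring
  have hleft : -(17 / 4 * (E0 * η) * (Real.pi - δ / 2)) ≤ ∫ θ in (-Real.pi)..(-(δ / 2)), F θ := by
    have h := intervalIntegral.norm_integral_le_of_norm_le_const (a := -Real.pi) (b := -(δ / 2))
      (f := F) (C := 17 / 4 * (E0 * η)) (by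
        intro θ hθ
        rw [Set.uIoc_of_le (by linarith)] at hθ
        have h0 : θ < 0 ∨ θ ≤ -(δ / 2) := Or.inr hθ.2
        have h1 : |θ| = -θ := abs_of_neg (by linarith [hθ.2])
        exact hbd θ (by rw [h1]; linarith [hθ.2]) (by rw [h1]; linarith [hθ.1]))
    rw [Real.norm_eq_abs, abs_of_pos (by linarith : (0 : ℝ) < -(δ / 2) - -Real.pi)] at h
    have := (abs_le.mp h).1
    linarith
  have hright : -(17 / 4 * (E0 * η) * (Real.pi - δ / 2)) ≤ ∫ θ in (δ / 2)..Real.pi, F θ := by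
    have h := intervalIntegral.norm_integral_le_of_norm_le_const (a := δ / 2) (b := Real.pi)
      (f := F) (C := 17 / 4 * (E0 * η)) (by
        intro θ hθ
        rw [Set.uIoc_of_le (by linarith)] at hθ
        have h1 : |θ| = θ := abs_of_pos (by linarith [hθ.1])
        exact hbd θ (by rw [h1]; linarith [hθ.1]) (by rw [h1]; linarith [hθ.2]))
    rw [Real.norm_eq_abs, abs_of_pos (by linarith : (0 : ℝ) < Real.pi - δ / 2)] at h
    have := (abs_le.mp h).1
    linarith
  have hpos : 0 < 2 * (A.coeff j * r ^ j) - A.coeff (j - 1) * r ^ (j - 1) -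
      A.coeff (j + 1) * r ^ (j + 1) := by
    have h1 : 0 < ∫ θ in (-Real.pi)..Real.pi, F θ := by
      rw [hsplit]
      have hpi4 := Real.pi_lt_four
      have h3 : 0 ≤ E0 * η := mul_nonneg hE0pos.le hη0
      have h2 : 17 / 4 * (E0 * η) * (Real.pi - δ / 2) ≤ 17 / 4 * (E0 * η) * 4 :=
        mul_le_mul_of_nonneg_left (by linarith) (by positivity)
      linarith
    rw [← hsd] at h1
    exact (mul_pos_iff_of_pos_right (by linarith)).1 h1
  have hp1 : 0 ≤ A.coeff (j - 1) * r ^ (j - 1) := mul_nonneg (hA _) (pow_nonneg hr0.le _)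
  have hp2 : 0 ≤ A.coeff (j + 1) * r ^ (j + 1) := mul_nonneg (hA _) (pow_nonneg hr0.le _)
  have hrj : 0 < r ^ j := pow_pos hr0 _
  constructor
  · have h1 : 0 < A.coeff j * r ^ j := by linarith
    exact (mul_pos_iff_of_pos_right hrj).1 h1
  · have h1 : (A.coeff (j - 1) * r ^ (j - 1)) * (A.coeff (j + 1) * r ^ (j + 1)) ≤
        (A.coeff j * r ^ j) ^ 2 := by
      nlinarith [sq_nonneg (A.coeff (j - 1) * r ^ (j - 1) - A.coeff (j + 1) * r ^ (j + 1))]
    have h2 : (A.coeff (j - 1) * r ^ (j - 1)) * (A.coeff (j + 1) * r ^ (j + 1)) =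
        A.coeff (j - 1) * A.coeff (j + 1) * (r ^ j) ^ 2 := by
      obtain ⟨m, rfl⟩ : ∃ m, j = m + 1 := ⟨j - 1, by omega⟩
      simp only [Nat.add_sub_cancel]
      ring
    rw [h2, mul_pow] at h1
    exact le_of_mul_le_mul_right h1 (by positivity)

end Pool.HB45
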