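import Pool.Agent.PH48.Bad
import Pool.Agent.PH48.CentAbs
import Pool.Agent.HB45.Uni

set_option autoImplicit false

/-!
# PH48/Center: log-concavity in the middle for height up to `c √(n / log n)`
-/

open Polynomial Filter

namespace Pool.HB45

private theorem ce_num1 : ∃ N0 : ℕ, ∀ N : ℕ, N0 ≤ N →
    40 * (16 / 15 * Real.exp ((N : ℝ) / 1600) * Real.exp (-((N : ℝ) / 400))) ≤
      1 / 48 * (1 / ((N : ℝ) + 2)) ^ 3 := by
  have hε : (0 : ℝ) < 1 / (4096 * (1600 / 3) ^ 3) := by positivity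
  obtain ⟨X, hX⟩ := eventually_atTop.mp
    ((Real.tendsto_pow_mul_exp_neg_atTop_nhds_zero 3).eventually_lt_const hε)
  obtain ⟨N0, hN0⟩ := exists_nat_ge (1600 / 3 * |X|)
  refine ⟨N0, fun N hN => ?_⟩
  have hNr : 1600 / 3 * |X| ≤ N := hN0.trans (by exact_mod_cast hN)
  obtain ⟨y, hy⟩ : ∃ y : ℝ, y = 3 / 1600 * ((N : ℝ) + 2) := ⟨_, rfl⟩
  have hy1 : X ≤ y := by
    have := le_abs_self X
    rw [hy]
    linarith
  have h1 := hX y hy1
  have hM : (0 : ℝ) < (N : ℝ) + 2 := by positivity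
  have e1 : Real.exp ((N : ℝ) / 1600) * Real.exp (-((N : ℝ) / 400)) =
      Real.exp (6 / 1600) * Real.exp (-y) := by
    rw [← Real.exp_add, ← Real.exp_add, hy]
    congr 1
    ring
  have e2 : Real.exp (6 / 1600) ≤ 2 := by
    have h2 := Real.abs_exp_sub_one_sub_id_le (x := 6 / 1600) (by norm_num)
    have h3 := (abs_le.1 h2).2
    have h4 : (6 / 1600 : ℝ) ^ 2 ≤ 1 / 2 := by norm_num
    have h5 : (6 / 1600 : ℝ) ≤ 1 / 2 := by norm_num
    linarith
  have e3 : (1 / ((N : ℝ) + 2)) ^ 3 = (3 / 1600) ^ 3 / y ^ 3 := by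
    rw [hy]
    field_simp
  have hy0 : 0 < y := by rw [hy]; positivity
  have hE : 0 < Real.exp (-y) := Real.exp_pos _
  rw [show 40 * (16 / 15 * Real.exp ((N : ℝ) / 1600) * Real.exp (-((N : ℝ) / 400))) =
    128 / 3 * (Real.exp ((N : ℝ) / 1600) * Real.exp (-((N : ℝ) / 400))) by ring, e1, e3]
  have h6 : y ^ 3 * Real.exp (-y) * 4096 < (3 / 1600) ^ 3 := by
    rw [lt_div_iff₀ (by positivity)] at h1
    have h7 : (y ^ 3 * Real.exp (-y) * (4096 * (1600 / 3) ^ 3)) * (3 / 1600 : ℝ) ^ 3 =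
        y ^ 3 * Real.exp (-y) * 4096 := by
      rw [show (3 / 1600 : ℝ) ^ 3 = 1 / (1600 / 3) ^ 3 by norm_num]
      field_simp
    have h8 := mul_lt_mul_of_pos_right h1 (by positivity : (0 : ℝ) < (3 / 1600 : ℝ) ^ 3)
    rw [h7, one_mul] at h8
    exact h8
  rw [mul_div_assoc', le_div_iff₀ (by positivity)]
  have h9 : Real.exp (6 / 1600) * (Real.exp (-y) * y ^ 3) ≤ 2 * (Real.exp (-y) * y ^ 3) :=
    mul_le_mul_of_nonneg_right e2 (by positivity)
  nlinarith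

private theorem ce_num2 : ∀ N : ℕ, 2000 ≤ N →
    40 * Real.exp (-(4 * Real.log N)) ≤ 1 / 48 * (1 / ((N : ℝ) + 2)) ^ 3 := by
  intro N hN
  have hN' : (2000 : ℝ) ≤ N := by exact_mod_cast hN
  have hN0 : (0 : ℝ) < N := by linarith
  have e1 : Real.exp (-(4 * Real.log N)) = 1 / (N : ℝ) ^ 4 := by
    rw [Real.exp_neg, show (4 : ℝ) * Real.log N = ((4 : ℕ) : ℝ) * Real.log N by norm_num,
      Real.exp_nat_mul, Real.exp_log hN0, one_div]
  rw [e1, one_div_pow, mul_one_div, mul_one_div, div_le_div_iff₀ (by positivity) (by positivity)]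
  have h1 : ((N : ℝ) + 2) ≤ 1001 / 1000 * N := by linarith
  have h2 : ((N : ℝ) + 2) ^ 3 ≤ (1001 / 1000 * N) ^ 3 := pow_le_pow_left₀ (by linarith) h1 3
  have h3 : (N : ℝ) ^ 4 = N ^ 3 * N := by ring
  have h4 : 2000 * (N : ℝ) ^ 3 ≤ N ^ 3 * N := by nlinarith [pow_pos hN0 3]
  have h5 : (1001 / 1000 * (N : ℝ)) ^ 3 = (1001 / 1000) ^ 3 * (N : ℝ) ^ 3 := by ring
  rw [h5] at h2
  have h6 : (0 : ℝ) < (N : ℝ) ^ 3 := pow_pos hN0 3
  rw [h3]
  nlinarith

/-- THE CENTRE, explicit constant: `h² log N ≤ y0 N / 71680000`. -/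
theorem center_explicit (y0 : ℝ) (hy0 : 0 < y0) : ∃ N0 : ℕ, ∀ N ≥ N0, ∀ h : ℕ, 1 ≤ h →
    (h : ℝ) ^ 2 * Real.log N ≤ y0 / 71680000 * N → ∀ (Q : Rel (N + 1)) (κ lab : Fin (N + 1) → ℕ),
    Lev h Q κ → Nat' Q lab → ∀ (m : ℕ) (hm : m * (3 + 2) ≤ N + 1) (Y : ℕ), y0 * N ≤ Y →
    (((LE Q).filter (fun π => na hm Q π < Y)).card : ℝ) ≤
      Real.exp (-((N : ℝ) / 400)) * (LE Q).card →
    ∀ j : ℕ, 1 ≤ j → |(N : ℝ) / 2 - j| ≤ ((N : ℝ) + 2) / (16000 * h) →
      0 < w Q lab j ∧ w Q lab (j - 1) * w Q lab (j + 1) ≤ w Q lab j ^ 2 := by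
  obtain ⟨N1, hN1⟩ := ce_num1
  obtain ⟨N2, hN2⟩ := central_q
  obtain ⟨c, hc⟩ : ∃ c : ℝ, c = y0 / 71680000 := ⟨_, rfl⟩
  have hc0 : 0 < c := by rw [hc]; positivity
  obtain ⟨N3, hN3⟩ := exists_nat_ge (640000 * c)
  refine ⟨max (max N1 N2) (max N3 2000), fun N hN h hh hhN Q κ lab hκ hn m hm Y hY hbad => ?_⟩
  rw [← hc] at hhN
  have g1 : N1 ≤ N := (le_max_left _ _).trans ((le_max_left _ _).trans hN)
  have g2 : N2 ≤ N := (le_max_right _ _).trans ((le_max_left _ _).trans hN)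
  have g3 : N3 ≤ N := (le_max_left _ _).trans ((le_max_right _ _).trans hN)
  have g4 : 2000 ≤ N := (le_max_right _ _).trans ((le_max_right _ _).trans hN)
  have g3' : 640000 * c ≤ N := hN3.trans (by exact_mod_cast g3)
  have g4' : (2000 : ℝ) ≤ N := by exact_mod_cast g4
  have hN0 : (0 : ℝ) < N := by linarith
  have hh1 : (1 : ℝ) ≤ h := by exact_mod_cast hh
  have hlog : 1 ≤ Real.log N := by
    rw [Real.le_log_iff_exp_le hN0]
    have := Real.exp_one_lt_d9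
    linarith
  have hh2 : (h : ℝ) ^ 2 ≤ c * N := by
    have : (h : ℝ) ^ 2 * 1 ≤ h ^ 2 * Real.log N := mul_le_mul_of_nonneg_left hlog (by positivity)
    linarith
  have h800 : 800 * (h : ℝ) ≤ N := by
    have h1 : (800 * (h : ℝ)) ^ 2 ≤ (N : ℝ) ^ 2 := by
      calc (800 * (h : ℝ)) ^ 2 = 640000 * (h : ℝ) ^ 2 := by ring
        _ ≤ 640000 * (c * N) := by linarith
        _ = 640000 * c * N := by ring
        _ ≤ N * N := mul_le_mul_of_nonneg_right g3' hN0.le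
        _ = (N : ℝ) ^ 2 := by ring
    exact le_of_pow_le_pow_left₀ (by norm_num) hN0.le h1
  obtain ⟨δ, hδ⟩ : ∃ δ : ℝ, δ = 1 / (400 * h) := ⟨_, rfl⟩
  have hδ0 : 0 < δ := by rw [hδ]; positivity
  have hδ1 : δ ≤ 1 / 10 := by
    rw [hδ, div_le_div_iff₀ (by positivity) (by norm_num)]
    linarith
  have hδ2 : δ / 2 = 1 / (800 * h) := by
    rw [hδ]
    field_simp
    norm_num
  have hMδ : 1 / ((N : ℝ) + 2) ≤ δ / 2 := by
    rw [hδ2, div_le_div_iff₀ (by positivity) (by positivity)]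
    linarith
  obtain ⟨η, hη⟩ : ∃ η : ℝ, η = Real.exp (-(4 * Real.log N)) +
      16 / 15 * Real.exp ((N : ℝ) / 1600) * Real.exp (-((N : ℝ) / 400)) := ⟨_, rfl⟩
  have hη0 : 0 ≤ η := by rw [hη]; positivity
  have hη1 : 40 * η ≤ 1 / 24 * (1 / ((N : ℝ) + 2)) ^ 3 := by
    have h1 := hN1 N g1
    have h2 := ce_num2 N g4
    rw [hη]
    linarith
  have hne : (LE Q).Nonempty := by
    obtain ⟨g, hg, -⟩ := exists_sorted hn
    exact ⟨g, hg⟩
  intro j hj hjN
  have hWp0 : ∀ k, 0 ≤ (Wp Q lab).coeff k := fun k => by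
    rw [coeff_Wp]
    exact Nat.cast_nonneg _
  have h1 := cent_abstract_q N δ η hδ0 hδ1 (hN2 N g2 δ hδ0 hMδ hδ1) hη0 hη1 (Wp Q lab)
    ((LE Q).card : ℝ) (by exact_mod_cast Finset.card_pos.2 hne) hWp0
    (fun s hs => by
      rw [aeval_Wp]
      have h2 := near_one hh hκ hn s (by rw [← hδ]; exact hs)
      exact_mod_cast h2)
    (fun s0 θ hs0 hθ hθ' => by
      have hs0' := abs_le.mp hs0
      set r := Real.exp (-s0) with hr
      have hr0 : 0 < r := Real.exp_pos _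
      have hs1 : |s0| ≤ 1 / 800 := by
        refine hs0.trans ?_
        rw [hδ2, div_le_div_iff₀ (by positivity) (by norm_num)]
        linarith
      have hs1' := abs_le.mp hs1
      have hr1 : 99 / 100 ≤ r := by
        have h := Real.add_one_le_exp (-s0)
        linarith
      have hr2 : r ≤ 101 / 100 := by
        have h := Real.add_one_le_exp s0
        have h2 : r * Real.exp s0 = 1 := by
          rw [hr, ← Real.exp_add]
          simp
        nlinarith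
      have hW0 : 0 ≤ (Wp Q lab).eval r := by
        rw [Polynomial.eval_eq_sum_range]
        exact Finset.sum_nonneg fun i _ => mul_nonneg (hWp0 i) (pow_nonneg hr0.le _)
      have h2 := decay2 hm hn Y r θ hr1 hr2
      have h3 := bad_le hh hκ hn s0 (Real.exp (-((N : ℝ) / 400))) (by
        rw [← hδ]
        linarith) (Real.exp_pos _).le _ hbad
      rw [← hr] at h3
      have h4 : Real.exp (|s0| * N / 2) ≤ Real.exp ((N : ℝ) / 1600) := by
        rw [Real.exp_le_exp]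
        have := mul_le_mul_of_nonneg_right hs1 hN0.le
        linarith
      have h5 : Real.exp (-(1 / 7 * Y * (1 - Real.cos θ))) ≤ Real.exp (-(4 * Real.log N)) := by
        rw [Real.exp_le_exp, neg_le_neg_iff]
        have h6 := cos_le_quarter (δ / 2) θ (by linarith) (by linarith) hθ hθ'
        rw [hδ2] at h6
        have h7 : (1 / (800 * (h : ℝ))) ^ 2 / 4 = 1 / (2560000 * (h : ℝ) ^ 2) := by
          field_simp
          norm_num
        rw [h7] at h6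
        have h8 : 4 * Real.log N ≤ 1 / 7 * (y0 * N) * (1 / (2560000 * (h : ℝ) ^ 2)) := by
          rw [mul_one_div, le_div_iff₀ (by positivity)]
          have h9 : 1 / 7 * (y0 * (N : ℝ)) = 10240000 * (c * N) := by
            rw [hc]
            ring
          rw [h9]
          linarith
        calc 4 * Real.log N ≤ 1 / 7 * (y0 * N) * (1 / (2560000 * (h : ℝ) ^ 2)) := h8
          _ ≤ 1 / 7 * Y * (1 / (2560000 * (h : ℝ) ^ 2)) :=
              mul_le_mul_of_nonneg_right (mul_le_mul_of_nonneg_left hY (by norm_num)) (by positivity)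
          _ ≤ 1 / 7 * Y * (1 - Real.cos θ) := mul_le_mul_of_nonneg_left h6 (by positivity)
      refine h2.trans ?_
      rw [hη, add_mul]
      refine add_le_add (mul_le_mul_of_nonneg_right h5 hW0) (h3.trans ?_)
      refine mul_le_mul_of_nonneg_right ?_ hW0
      refine mul_le_mul_of_nonneg_right ?_ (Real.exp_pos _).le
      exact mul_le_mul_of_nonneg_left h4 (by norm_num)) j hj (by
        refine hjN.trans (le_of_eq ?_)
        rw [hδ]
        field_simp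
        norm_num)
  rw [coeff_Wp, coeff_Wp, coeff_Wp] at h1
  exact ⟨by exact_mod_cast h1.1, by exact_mod_cast h1.2⟩

/-- THE CENTRE. -/
theorem center (y0 : ℝ) (hy0 : 0 < y0) : ∃ c : ℝ, 0 < c ∧ ∃ N0 : ℕ, ∀ N ≥ N0, ∀ h : ℕ, 1 ≤ h →
    (h : ℝ) ^ 2 * Real.log N ≤ c * N → ∀ (Q : Rel (N + 1)) (κ lab : Fin (N + 1) → ℕ),
    Lev h Q κ → Nat' Q lab → ∀ (m : ℕ) (hm : m * (3 + 2) ≤ N + 1) (Y : ℕ), y0 * N ≤ Y →
    (((LE Q).filter (fun π => na hm Q π < Y)).card : ℝ) ≤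
      Real.exp (-((N : ℝ) / 400)) * (LE Q).card →
    ∀ j : ℕ, 1 ≤ j → |(N : ℝ) / 2 - j| ≤ ((N : ℝ) + 2) / (16000 * h) →
      0 < w Q lab j ∧ w Q lab (j - 1) * w Q lab (j + 1) ≤ w Q lab j ^ 2 :=
  ⟨y0 / 71680000, by positivity, center_explicit y0 hy0⟩

end Pool.HB45
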