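import Pool.Agent.PH48.Win4

set_option autoImplicit false

/-!
# PH48/Decay: decay of `W` on circles, from the antichain windows
-/

open Polynomial

namespace Pool.HB45

theorem GW_eval_nonneg {N B m : ℕ} (hm : m * (B + 2) ≤ N + 1) (Q : Rel (N + 1))
    (lab : Fin (N + 1) → ℕ) (π : Equiv.Perm (Fin (N + 1))) (k : Fin m) {r : ℝ} (hr : 0 ≤ r) :
    0 ≤ (GW hm Q lab π k).eval r := by
  unfold GW Gp
  rw [eval_finset_sum]
  refine Finset.sum_nonneg fun g _ => ?_
  rw [eval_pow, eval_X]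
  exact pow_nonneg hr _

/-- every window: no growth -/
theorem GW_norm_le {N B m : ℕ} (hm : m * (B + 2) ≤ N + 1) (Q : Rel (N + 1))
    (lab : Fin (N + 1) → ℕ) (π : Equiv.Perm (Fin (N + 1))) (k : Fin m) {r : ℝ} {t : ℂ}
    (ht : ‖t‖ = r) : ‖aeval t (GW hm Q lab π k)‖ ≤ (GW hm Q lab π k).eval r := by
  unfold GW Gp
  rw [map_sum, eval_finset_sum]
  refine (norm_sum_le _ _).trans (Finset.sum_le_sum fun g _ => ?_)
  rw [eval_pow, eval_X, map_pow, aeval_X, norm_pow, ht]

/-- antichain windows: decay -/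
theorem GW_norm_anti {N m : ℕ} (hm : m * (3 + 2) ≤ N + 1) {Q : Rel (N + 1)}
    {lab : Fin (N + 1) → ℕ} (hn : Nat' Q lab) (π : Equiv.Perm (Fin (N + 1))) (k : Fin m)
    (hA : Anti (win_le hm k) Q π) (r θ : ℝ) (hr : 99 / 100 ≤ r) (hr' : r ≤ 101 / 100) :
    ‖aeval ((r : ℂ) * Complex.exp (θ * Complex.I)) (GW hm Q lab π k)‖ ≤
      Real.exp (-(1 / 7 * (1 - Real.cos θ))) * (GW hm Q lab π k).eval r :=
  Gp_anti (nat_win hn (win_le hm k) π).inj hA (cB lab 3 k.val π) (dB lab 3 k.val π) r θ hr hr'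

/-- DECAY: words with at least `Y` antichain windows have decay, the others are estimated trivially. -/
theorem decay2 {N m : ℕ} (hm : m * (3 + 2) ≤ N + 1) {Q : Rel (N + 1)} {lab : Fin (N + 1) → ℕ}
    (hn : Nat' Q lab) (Y : ℕ) (r θ : ℝ) (hr : 99 / 100 ≤ r) (hr' : r ≤ 101 / 100) :
    ‖aeval ((r : ℂ) * Complex.exp (θ * Complex.I)) (Wp Q lab)‖ ≤
      Real.exp (-(1 / 7 * Y * (1 - Real.cos θ))) * (Wp Q lab).eval r +
        ∑ π ∈ (LE Q).filter (fun π => na hm Q π < Y), r ^ des lab π := by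
  classical
  have hr0 : 0 ≤ r := by linarith
  have hcos : 0 ≤ 1 - Real.cos θ := by linarith [Real.cos_le_one θ]
  have ht : ‖(r : ℂ) * Complex.exp (θ * Complex.I)‖ = r := by
    rw [norm_mul, Complex.norm_exp_ofReal_mul_I, mul_one, Complex.norm_real, Real.norm_eq_abs,
      abs_of_nonneg hr0]
  set t : ℂ := (r : ℂ) * Complex.exp (θ * Complex.I) with htt
  -- the summand of the decomposition at `r`
  set T : Equiv.Perm (Fin (N + 1)) → ℝ := fun π =>
    (∏ k : Fin m, ((LE (winRel (win_le hm k) Q π)).card : ℝ))⁻¹ * r ^ rest lab 3 m π *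
      ∏ k : Fin m, (GW hm Q lab π k).eval r with hT
  have hc0 : ∀ π, 0 ≤ (∏ k : Fin m, ((LE (winRel (win_le hm k) Q π)).card : ℝ))⁻¹ *
      r ^ rest lab 3 m π := fun π =>
    mul_nonneg (inv_nonneg.2 (Finset.prod_nonneg fun k _ => Nat.cast_nonneg _)) (pow_nonneg hr0 _)
  have hT0 : ∀ π, 0 ≤ T π := fun π => mul_nonneg (hc0 π)
    (Finset.prod_nonneg fun k _ => GW_eval_nonneg hm Q lab π k hr0)
  -- product of the windows
  have hprod : ∀ π : Equiv.Perm (Fin (N + 1)), ∏ k : Fin m, ‖aeval t (GW hm Q lab π k)‖ ≤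
      Real.exp (-(1 / 7 * (1 - Real.cos θ))) ^ na hm Q π * ∏ k : Fin m, (GW hm Q lab π k).eval r := by
    intro π
    have e1 : Real.exp (-(1 / 7 * (1 - Real.cos θ))) ^ na hm Q π =
        ∏ k : Fin m, if Anti (win_le hm k) Q π then Real.exp (-(1 / 7 * (1 - Real.cos θ))) else 1 := by
      rw [Finset.prod_ite, Finset.prod_const, Finset.prod_const_one, mul_one]
      rfl
    rw [e1, ← Finset.prod_mul_distrib]
    refine Finset.prod_le_prod (fun k _ => norm_nonneg _) fun k _ => ?_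
    split_ifs with hA
    · exact GW_norm_anti hm hn π k hA r θ hr hr'
    · rw [one_mul]
      exact GW_norm_le hm Q lab π k ht
  have hE1 : Real.exp (-(1 / 7 * (1 - Real.cos θ))) ≤ 1 := by
    rw [Real.exp_le_one_iff]
    linarith
  have hE0 := (Real.exp_pos (-(1 / 7 * (1 - Real.cos θ)))).le
  have hpow : Real.exp (-(1 / 7 * (1 - Real.cos θ))) ^ Y = Real.exp (-(1 / 7 * Y * (1 - Real.cos θ))) := by
    rw [← Real.exp_nat_mul]
    congr 1
    ring
  -- the norm of one summand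
  have hterm : ∀ π : Equiv.Perm (Fin (N + 1)),
      ‖aeval t (C ((∏ k : Fin m, ((LE (winRel (win_le hm k) Q π)).card : ℝ))⁻¹) *
        X ^ rest lab 3 m π * ∏ k : Fin m, GW hm Q lab π k)‖ ≤
      Real.exp (-(1 / 7 * (1 - Real.cos θ))) ^ na hm Q π * T π := by
    intro π
    rw [map_mul, map_mul, map_pow, map_prod, aeval_C, aeval_X, norm_mul, norm_mul, norm_pow,
      norm_prod, ht, Complex.coe_algebraMap, Complex.norm_real, Real.norm_eq_abs,
      abs_of_nonneg (inv_nonneg.2 (Finset.prod_nonneg fun k _ => Nat.cast_nonneg _))]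
    calc _ ≤ (∏ k : Fin m, ((LE (winRel (win_le hm k) Q π)).card : ℝ))⁻¹ * r ^ rest lab 3 m π *
          (Real.exp (-(1 / 7 * (1 - Real.cos θ))) ^ na hm Q π *
            ∏ k : Fin m, (GW hm Q lab π k).eval r) := mul_le_mul_of_nonneg_left (hprod π) (hc0 π)
      _ = _ := by rw [hT]; ring
  have hsum1 : (Wp Q lab).eval r = ∑ π ∈ LE Q, T π := by
    rw [win_decomp hm Q lab, eval_finset_sum]
    refine Finset.sum_congr rfl fun π _ => ?_
    rw [eval_mul, eval_mul, eval_pow, eval_prod, eval_C, eval_X]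
  have hsum2 : ∑ π ∈ (LE Q).filter (fun π => na hm Q π < Y), r ^ des lab π =
      ∑ π ∈ (LE Q).filter (fun π => na hm Q π < Y), T π := by
    have h1 := win_decomp_rho hm Q lab (fun π => if na hm Q π < Y then 1 else 0) (by
      intro k g π _ _
      simp only [na_mul_emb])
    have h2 := congrArg (fun p : ℝ[X] => p.eval r) h1
    simp only [eval_finset_sum, eval_mul, eval_pow, eval_prod, eval_C, eval_X] at h2
    rw [Finset.sum_filter, Finset.sum_filter]
    calc _ = ∑ π ∈ LE Q, (if na hm Q π < Y then (1 : ℝ) else 0) * r ^ des lab π :=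
          Finset.sum_congr rfl fun π _ => by split_ifs <;> simp
      _ = _ := h2
      _ = _ := Finset.sum_congr rfl fun π _ => by
          rw [hT]
          split_ifs <;> simp
  rw [hsum1, hsum2, Finset.mul_sum, win_decomp hm Q lab, map_sum, Finset.sum_filter,
    ← Finset.sum_add_distrib]
  refine (norm_sum_le _ _).trans (Finset.sum_le_sum fun π _ => (hterm π).trans ?_)
  split_ifs with hY
  · have h1 : Real.exp (-(1 / 7 * (1 - Real.cos θ))) ^ na hm Q π ≤ 1 := pow_le_one₀ hE0 hE1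
    have h2 := mul_le_mul_of_nonneg_right h1 (hT0 π)
    have h3 := mul_nonneg (Real.exp_pos (-(1 / 7 * Y * (1 - Real.cos θ)))).le (hT0 π)
    linarith
  · rw [add_zero, ← hpow]
    exact mul_le_mul_of_nonneg_right (pow_le_pow_of_le_one hE0 hE1 (not_lt.1 hY)) (hT0 π)

end Pool.HB45
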