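import Pool.Agent.PH48.Center
import Pool.Agent.SC45.Del
import Pool.Agent.SC45.OmC

set_option autoImplicit false

/-!
# PH48/Rare0: few words have many windows which are not antichains; the centre without hypothesis
-/

open Polynomial

namespace Pool.SC45

open Pool.HB45

/-- a window which is not an antichain contains a position of `Bf 3` -/
theorem nonanti_le_Bf {N m : ℕ} (hm : m * (3 + 2) ≤ N + 1) {Q : Rel (N + 1)}
    {g : Equiv.Perm (Fin (N + 1))} (hg : g ∈ LE Q) : m ≤ na hm Q g + (Bf 3 Q g).card := by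
  classical
  have h1 : na hm Q g + (Finset.univ.filter fun k : Fin m => ¬ Anti (win_le hm k) Q g).card = m := by
    unfold na
    rw [Finset.card_filter_add_card_filter_not]
    simp
  have h2 : (Finset.univ.filter fun k : Fin m => ¬ Anti (win_le hm k) Q g).card ≤
      (Bf 3 Q g).card := by
    have hex : ∀ k : Fin m, ∃ p : Fin (N + 1), ¬ Anti (win_le hm k) Q g →
        (p ∈ Bf 3 Q g ∧ k.val * (3 + 2) ≤ p.val ∧ p.val < k.val * (3 + 2) + (3 + 1)) := by
      intro k
      by_cases hA : Anti (win_le hm k) Q g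
      · exact ⟨0, fun h => absurd hA h⟩
      · have hA' := hA
        unfold Anti at hA'
        push Not at hA'
        obtain ⟨i, j, hij⟩ := hA'
        refine ⟨wpos (win_le hm k) j, fun _ => ?_⟩
        have hin := wpos_in (win_le hm k) j
        have hin' := wpos_in (win_le hm k) i
        have hlt : wpos (win_le hm k) i < wpos (win_le hm k) j := (mem_LE.1 hg) _ _ hij
        refine ⟨?_, hin⟩
        unfold Bf
        rw [Finset.mem_filter]
        refine ⟨Finset.mem_univ _, wpos (win_le hm k) i, hlt, ?_, hij⟩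
        omega
    choose p hp using hex
    refine Finset.card_le_card_of_injOn p ?_ ?_
    · intro k hk
      rw [Finset.mem_coe, Finset.mem_filter] at hk
      exact (hp k hk.2).1
    · intro k hk l hl hkl
      rw [Finset.mem_coe, Finset.mem_filter] at hk hl
      have h3 := (hp k hk.2).2
      have h4 := (hp l hl.2).2
      rw [hkl] at h3
      apply Fin.ext
      omega
  omega

/-- the number of words with at least `k` positions in `Bf 3` -/
theorem rare0 {N h k : ℕ} (hh : 1 ≤ h) {Q : Rel (N + 1)} {κ lab : Fin (N + 1) → ℕ}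
    (hκ : Lev h Q κ) (hn : Nat' Q lab) (hQ : Tr Q) (hk : k ≤ N) :
    (((LE Q).filter fun g => k ≤ (Bf 3 Q g).card).card : ℝ) * (k.factorial : ℝ) ≤
      2 ^ (N + 1) * (3 * h) ^ k * (LE Q).card := by
  obtain ⟨N', hN'⟩ : ∃ N', N' + k = N := ⟨N - k, by omega⟩
  have hf1 : (0 : ℝ) < ((N + 1).factorial : ℝ) := by exact_mod_cast Nat.factorial_pos _
  have h1 := rare hN' 3 1 zero_le_one le_rfl hn
    (2 ^ (N + 1) * (h : ℝ) ^ k * ((N' + 1).factorial : ℝ) * (LE Q).card / ((N + 1).factorial : ℝ))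
    (fun ι hι => by
      have h2 := card_sub_le hh hκ hn hQ ι hι
      have h3 : N - N' = k := by omega
      rw [h3] at h2
      rw [le_div_iff₀ hf1]
      unfold Wr
      simp only [one_pow, Finset.sum_const, nsmul_eq_mul, mul_one]
      exact h2)
  simp only [one_pow, Finset.sum_const, nsmul_eq_mul, mul_one] at h1
  have h4 : ((N + 1).choose k : ℝ) * (k.factorial : ℝ) * ((N' + 1).factorial : ℝ) =
      ((N + 1).factorial : ℝ) := by
    have h5 := Nat.choose_mul_factorial_mul_factorial (show k ≤ N + 1 by omega)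
    have h6 : N + 1 - k = N' + 1 := by omega
    rw [h6] at h5
    exact_mod_cast h5
  have h7 := mul_le_mul_of_nonneg_right h1 (Nat.cast_nonneg (α := ℝ) k.factorial)
  refine h7.trans (le_of_eq ?_)
  rw [mul_pow]
  push_cast
  calc ((N + 1).choose k : ℝ) * 3 ^ k * (2 ^ (N + 1) * (h : ℝ) ^ k * ((N' + 1).factorial : ℝ) *
        (LE Q).card / ((N + 1).factorial : ℝ)) * (k.factorial : ℝ)
      = (((N + 1).choose k : ℝ) * (k.factorial : ℝ) * ((N' + 1).factorial : ℝ)) /
          ((N + 1).factorial : ℝ) * (2 ^ (N + 1) * (3 ^ k * (h : ℝ) ^ k) * (LE Q).card) := by ring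
    _ = 2 ^ (N + 1) * (3 ^ k * (h : ℝ) ^ k) * (LE Q).card := by
        rw [h4, div_self hf1.ne', one_mul]

private theorem fact_ge (k : ℕ) : ((k : ℝ) / Real.exp 1) ^ k ≤ (k.factorial : ℝ) := by
  have h1 := Real.pow_div_factorial_le_exp (k : ℝ) (Nat.cast_nonneg k) k
  have hf : (0 : ℝ) < (k.factorial : ℝ) := by exact_mod_cast Nat.factorial_pos _
  rw [div_le_iff₀ hf] at h1
  rw [div_pow, div_le_iff₀ (by positivity), ← Real.exp_nat_mul, mul_one, mul_comm]
  exact h1

/-- numbers -/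
theorem rare0_num {N h k : ℕ} (hN : 5 ≤ N) (hk : (N : ℝ) / 8 ≤ k)
    (hNh : 24 * Real.exp 11 * h ≤ N) :
    2 ^ (N + 1) * (3 * (h : ℝ)) ^ k ≤ Real.exp (-((N : ℝ) / 400)) * (k.factorial : ℝ) := by
  have hN' : (5 : ℝ) ≤ N := by exact_mod_cast hN
  have hk0 : (0 : ℝ) < k := by linarith
  have hE : 0 < Real.exp 1 := Real.exp_pos 1
  have hE11 : Real.exp 11 = Real.exp 10 * Real.exp 1 := by
    rw [← Real.exp_add]
    norm_num
  have h1 : 3 * (h : ℝ) ≤ Real.exp (-10) * (k / Real.exp 1) := by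
    have h2 : 24 * Real.exp 11 * (h : ℝ) ≤ 8 * k := by linarith
    have h3 : Real.exp (-10) * Real.exp 10 = 1 := by
      rw [← Real.exp_add]
      norm_num
    rw [mul_div_assoc', le_div_iff₀ hE]
    have h4 : 3 * (h : ℝ) * Real.exp 1 = Real.exp (-10) * (3 * Real.exp 11 * h) := by
      rw [hE11]
      calc 3 * (h : ℝ) * Real.exp 1 = 3 * h * Real.exp 1 * 1 := by ring
        _ = 3 * h * Real.exp 1 * (Real.exp (-10) * Real.exp 10) := by rw [h3]
        _ = _ := by ring
    rw [h4]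
    exact mul_le_mul_of_nonneg_left (by linarith) (Real.exp_pos _).le
  have h5 : (3 * (h : ℝ)) ^ k ≤ (Real.exp (-10) * (k / Real.exp 1)) ^ k :=
    pow_le_pow_left₀ (by positivity) h1 k
  have h6 : (Real.exp (-10) * (k / Real.exp 1)) ^ k ≤ Real.exp (-(10 * k)) * (k.factorial : ℝ) := by
    rw [mul_pow]
    have h7 : Real.exp (-10) ^ k = Real.exp (-(10 * k)) := by
      rw [← Real.exp_nat_mul]
      congr 1
      ring
    rw [h7]
    exact mul_le_mul_of_nonneg_left (fact_ge k) (Real.exp_pos _).le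
  have h8 : (2 : ℝ) ^ (N + 1) ≤ Real.exp ((N : ℝ) + 1) := by
    have h9 : (2 : ℝ) ≤ Real.exp 1 := by
      have := Real.add_one_le_exp (1 : ℝ)
      linarith
    calc (2 : ℝ) ^ (N + 1) ≤ Real.exp 1 ^ (N + 1) := pow_le_pow_left₀ (by norm_num) h9 _
      _ = Real.exp ((N : ℝ) + 1) := by
          rw [← Real.exp_nat_mul]
          congr 1
          push_cast
          ring
  have h9 : Real.exp ((N : ℝ) + 1) * Real.exp (-(10 * (k : ℝ))) ≤ Real.exp (-((N : ℝ) / 400)) := by
    rw [← Real.exp_add, Real.exp_le_exp]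
    linarith
  have hf0 : (0 : ℝ) ≤ (k.factorial : ℝ) := Nat.cast_nonneg _
  calc 2 ^ (N + 1) * (3 * (h : ℝ)) ^ k
      ≤ Real.exp ((N : ℝ) + 1) * (Real.exp (-(10 * (k : ℝ))) * (k.factorial : ℝ)) :=
        mul_le_mul h8 (h5.trans h6) (by positivity) (Real.exp_pos _).le
    _ = Real.exp ((N : ℝ) + 1) * Real.exp (-(10 * (k : ℝ))) * (k.factorial : ℝ) := by ring
    _ ≤ _ := mul_le_mul_of_nonneg_right h9 hf0

/-- share of the words with few antichain windows -/
theorem share0 {N h : ℕ} (hh : 1 ≤ h) {Q : Rel (N + 1)} {κ lab : Fin (N + 1) → ℕ}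
    (hκ : Lev h Q κ) (hn : Nat' Q lab) (hQ : Tr Q) (hN : 200 ≤ N)
    (hNh : 24 * Real.exp 11 * h ≤ N) (m : ℕ) (hmd : m = (N + 1) / 5)
    (hm : m * (3 + 2) ≤ N + 1) (Y : ℕ) (hYd : Y = N / 20 + 1) :
    (((LE Q).filter (fun π => na hm Q π < Y)).card : ℝ) ≤
      Real.exp (-((N : ℝ) / 400)) * (LE Q).card := by
  classical
  obtain ⟨k, hkd⟩ : ∃ k, k = m - Y := ⟨_, rfl⟩
  have hkY : k + Y = m := by omega
  have hkN : k ≤ N := by omega
  have hk8 : (N : ℝ) / 8 ≤ k := by
    have h1 : N ≤ 8 * k := by omega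
    have h2 : (N : ℝ) ≤ 8 * k := by exact_mod_cast h1
    linarith
  have h1 : ((LE Q).filter (fun π => na hm Q π < Y)).card ≤
      ((LE Q).filter fun g => k ≤ (Bf 3 Q g).card).card := by
    refine Finset.card_le_card fun g hg => ?_
    rw [Finset.mem_filter] at hg ⊢
    refine ⟨hg.1, ?_⟩
    have h2 := nonanti_le_Bf hm hg.1
    omega
  have h1' : (((LE Q).filter (fun π => na hm Q π < Y)).card : ℝ) ≤
      (((LE Q).filter fun g => k ≤ (Bf 3 Q g).card).card : ℝ) := by exact_mod_cast h1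
  have h3 := rare0 hh hκ hn hQ hkN
  have h4 := rare0_num (N := N) (h := h) (k := k) (by omega) hk8 hNh
  have hf : (0 : ℝ) < (k.factorial : ℝ) := by exact_mod_cast Nat.factorial_pos _
  refine h1'.trans ?_
  refine le_of_mul_le_mul_right ?_ hf
  refine h3.trans ?_
  have h5 := mul_le_mul_of_nonneg_right h4 (Nat.cast_nonneg (α := ℝ) (LE Q).card)
  linarith

/-- THE CENTRE without hypothesis on the windows. -/
theorem center_final : ∃ N0 : ℕ, ∀ N ≥ N0, ∀ h : ℕ, 1 ≤ h →
    (h : ℝ) ^ 2 * Real.log N ≤ 1 / 1433600000 * N → ∀ (Q : Rel (N + 1)) (κ lab : Fin (N + 1) → ℕ),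
    Lev h Q κ → Nat' Q lab → Tr Q →
    ∀ j : ℕ, 1 ≤ j → |(N : ℝ) / 2 - j| ≤ ((N : ℝ) + 2) / (16000 * h) →
      0 < w Q lab j ∧ w Q lab (j - 1) * w Q lab (j + 1) ≤ w Q lab j ^ 2 := by
  obtain ⟨N1, hN1⟩ := center_explicit (1 / 20) (by norm_num)
  obtain ⟨N2, hN2⟩ := exists_nat_ge ((24 * Real.exp 11) ^ 2)
  refine ⟨max N1 (max N2 200), fun N hN h hh hhN Q κ lab hκ hn hQ => ?_⟩
  have g1 : N1 ≤ N := (le_max_left _ _).trans hN
  have g2 : N2 ≤ N := (le_max_left _ _).trans ((le_max_right _ _).trans hN)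
  have g3 : 200 ≤ N := (le_max_right _ _).trans ((le_max_right _ _).trans hN)
  have g2' : (24 * Real.exp 11) ^ 2 ≤ (N : ℝ) := hN2.trans (by exact_mod_cast g2)
  have g3' : (200 : ℝ) ≤ N := by exact_mod_cast g3
  have hN0 : (0 : ℝ) < N := by linarith
  have hlog : 1 ≤ Real.log N := by
    rw [Real.le_log_iff_exp_le hN0]
    have := Real.exp_one_lt_d9
    linarith
  have hh2 : (h : ℝ) ^ 2 ≤ N := by
    have h1 : (h : ℝ) ^ 2 * 1 ≤ h ^ 2 * Real.log N := mul_le_mul_of_nonneg_left hlog (by positivity)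
    linarith
  have hNh : 24 * Real.exp 11 * h ≤ N := by
    have h1 : (24 * Real.exp 11 * h) ^ 2 ≤ (N : ℝ) ^ 2 := by
      rw [mul_pow, pow_two (N : ℝ)]
      exact mul_le_mul g2' hh2 (by positivity) hN0.le
    exact le_of_pow_le_pow_left₀ (by norm_num) hN0.le h1
  have hm : (N + 1) / 5 * (3 + 2) ≤ N + 1 := Nat.div_mul_le_self _ _
  exact hN1 N g1 h hh (by linarith) Q κ lab hκ hn ((N + 1) / 5) hm (N / 20 + 1) (by
    have h1 : N ≤ 20 * (N / 20 + 1) := by omega
    have h2 : (N : ℝ) ≤ 20 * ((N / 20 + 1 : ℕ) : ℝ) := by exact_mod_cast h1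
    linarith) (share0 hh hκ hn hQ g3 hNh _ rfl hm _ rfl)

end Pool.SC45
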